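import Mathlib

/-!
# Weighted complete mixability: definitions (MP_a34d76_pr)
-/

set_option autoImplicit false

open MeasureTheory Set
open scoped ENNReal

namespace Pool.Agent.Lib.MP_a34d76_pr.WM

/-- weighted complete mixability around `0` with threshold `δ`. -/
def WMix {E : Type*} [AddCommGroup E] [Module ℝ E] [MeasurableSpace E] (δ : ℝ) (μ : Measure E) :
    Prop :=
  ∀ (n : ℕ) (w : Fin n → ℝ), (∀ i, 0 ≤ w i) → (∀ i, δ * w i ≤ ∑ k, w k) →
    ∃ P : Measure (Fin n → E), IsProbabilityMeasure P ∧ (∀ i, P.map (fun x => x i) = μ) ∧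
      ∀ᵐ x ∂P, ∑ i, w i • x i = 0

/-- the law of `(t X, (1 - t) Y, t - p / (p + q))`, `t ~ Beta(p, q)`, `X ~ μ`, `Y ~ ν`
independent, tested on continuous functions. -/
def IsJoin {E F : Type*} [TopologicalSpace E] [AddCommGroup E] [Module ℝ E] [MeasurableSpace E]
    [TopologicalSpace F] [AddCommGroup F] [Module ℝ F] [MeasurableSpace F] (p q : ℕ)
    (μ : Measure E) (ν : Measure F) (ρ : Measure (E × F × ℝ)) : Prop :=
  ∀ g : E × F × ℝ → ℝ, Continuous g →
    (∫ t in (0 : ℝ)..1, t ^ (p - 1) * (1 - t) ^ (q - 1)) * ∫ z, g z ∂ρ =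
      ∫ t in (0 : ℝ)..1, t ^ (p - 1) * (1 - t) ^ (q - 1) *
        ∫ x, ∫ y, g (t • x, (1 - t) • y, t - p / (p + q)) ∂ν ∂μ

end Pool.Agent.Lib.MP_a34d76_pr.WM
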