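import Mathlib
import Pool.Agent.Lib.MP_a34d76_pr.WM.Defs

/-!
# The uniform law of the join of two compact sets (MP_a34d76_pr, module C3)
-/

set_option autoImplicit false
open MeasureTheory Set
open scoped ENNReal Pointwise
namespace Pool.Agent.Lib.MP_a34d76_pr.WM

/-- the join of two sets in coordinates -/
def joinSet {k l : ℕ} (K : Set (Fin k → ℝ)) (L : Set (Fin l → ℝ)) :
    Set ((Fin k → ℝ) × (Fin l → ℝ) × ℝ) :=
  {z | ∃ t ∈ Icc (0 : ℝ) 1, ∃ x ∈ K, ∃ y ∈ L, z = (t • x, (1 - t) • y, t)}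

theorem isCompact_joinSet {k l : ℕ} {K : Set (Fin k → ℝ)} {L : Set (Fin l → ℝ)}
    (hK : IsCompact K) (hL : IsCompact L) : IsCompact (joinSet K L) := by
  have h : joinSet K L = (fun w : ℝ × (Fin k → ℝ) × (Fin l → ℝ) =>
      ((w.1 • w.2.1, (1 - w.1) • w.2.2, w.1) : (Fin k → ℝ) × (Fin l → ℝ) × ℝ)) ''
        (Icc (0 : ℝ) 1 ×ˢ K ×ˢ L) := by
    ext z
    constructor
    · rintro ⟨t, ht, x, hx, y, hy, rfl⟩
      exact ⟨(t, x, y), ⟨ht, hx, hy⟩, rfl⟩
    · rintro ⟨⟨t, x, y⟩, ⟨ht, hx, hy⟩, rfl⟩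
      exact ⟨t, ht, x, hx, y, hy, rfl⟩
  rw [h]
  refine (isCompact_Icc.prod (hK.prod hL)).image ?_
  fun_prop

/-- scaling of a set integral -/
theorem setIntegral_smul_set {k : ℕ} (K : Set (Fin k → ℝ)) {t : ℝ} (ht : 0 < t)
    (f : (Fin k → ℝ) → ℝ) :
    ∫ u in t • K, f u = t ^ k * ∫ x in K, f (t • x) := by
  have h := Measure.setIntegral_comp_smul_of_pos (volume : Measure (Fin k → ℝ)) f K ht
  rw [h, Module.finrank_fin_fun, smul_eq_mul, ← mul_assoc, mul_inv_cancel₀, one_mul]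
  positivity

/-- the integral over the join, Fubini -/
theorem integral_joinSet {k l : ℕ} {K : Set (Fin k → ℝ)} {L : Set (Fin l → ℝ)}
    (hK : IsCompact K) (hL : IsCompact L) (G : (Fin k → ℝ) × (Fin l → ℝ) × ℝ → ℝ)
    (hG : Continuous G) :
    ∫ z in joinSet K L, G z = ∫ t in (0 : ℝ)..1, t ^ k * (1 - t) ^ l *
      ∫ x in K, ∫ y in L, G (t • x, (1 - t) • y, t) := by
  have hJ := isCompact_joinSet hK hL
  set f : (Fin k → ℝ) × (Fin l → ℝ) × ℝ → ℝ := (joinSet K L).indicator G with hf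
  have hfi : Integrable f volume :=
    (integrable_indicator_iff hJ.measurableSet).2 (hG.continuousOn.integrableOn_compact hJ)
  rw [← integral_indicator hJ.measurableSet]
  have hp := volume_preserving_prodAssoc (α₁ := Fin k → ℝ) (β₁ := Fin l → ℝ) (γ₁ := ℝ)
  rw [← hp.integral_comp' (f := MeasurableEquiv.prodAssoc) f]
  have hfi' : Integrable (fun w => f (MeasurableEquiv.prodAssoc w))
      (volume : Measure (((Fin k → ℝ) × (Fin l → ℝ)) × ℝ)) :=
    (hp.integrable_comp_emb MeasurableEquiv.prodAssoc.measurableEmbedding).2 hfi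
  rw [Measure.volume_eq_prod, integral_prod_symm _ (by rwa [Measure.volume_eq_prod] at hfi')]
  rw [intervalIntegral.integral_of_le zero_le_one, integral_Ioc_eq_integral_Ioo,
    ← integral_indicator measurableSet_Ioo]
  refine integral_congr_ae ?_
  have hnull : ∀ᵐ t : ℝ, t ∉ ({0, 1} : Set ℝ) := (Set.toFinite ({0, 1} : Set ℝ)).countable.ae_notMem _
  filter_upwards [hnull] with t ht
  simp only [mem_insert_iff, mem_singleton_iff, not_or] at ht
  by_cases htI : t ∈ Ioo (0 : ℝ) 1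
  · rw [indicator_of_mem htI]
    have h0 : 0 < t := htI.1
    have h1 : 0 < 1 - t := sub_pos.2 htI.2
    have hsec : ∀ p : (Fin k → ℝ) × (Fin l → ℝ), f (MeasurableEquiv.prodAssoc (p, t)) =
        ((t • K) ×ˢ ((1 - t) • L)).indicator (fun p => G (p.1, p.2, t)) p := by
      rintro ⟨u, v⟩
      by_cases h : (u, v) ∈ (t • K) ×ˢ ((1 - t) • L)
      · rw [indicator_of_mem h]
        obtain ⟨⟨x, hx, hx'⟩, ⟨y, hy, hy'⟩⟩ := h
        have hm : ((u, v, t) : (Fin k → ℝ) × (Fin l → ℝ) × ℝ) ∈ joinSet K L :=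
          ⟨t, Ioo_subset_Icc_self htI, x, hx, y, hy, by
            simp only [Prod.mk.injEq, and_true]; exact ⟨hx'.symm, hy'.symm⟩⟩
        change (joinSet K L).indicator G (u, v, t) = _
        rw [indicator_of_mem hm]
      · rw [indicator_of_notMem h]
        change (joinSet K L).indicator G (u, v, t) = _
        refine indicator_of_notMem ?_ _
        rintro ⟨s, hs, x, hx, y, hy, he⟩
        simp only [Prod.mk.injEq] at he
        obtain ⟨rfl, rfl, rfl⟩ := he
        exact h ⟨⟨x, hx, rfl⟩, ⟨y, hy, rfl⟩⟩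
    simp_rw [hsec]
    have hKt : IsCompact (t • K) := hK.smul t
    have hLt : IsCompact ((1 - t) • L) := hL.smul (1 - t)
    rw [integral_indicator (hKt.measurableSet.prod hLt.measurableSet), Measure.volume_eq_prod,
      setIntegral_prod]
    · rw [setIntegral_smul_set K h0]
      simp_rw [setIntegral_smul_set L h1]
      rw [integral_const_mul]
      ring
    · rw [← Measure.volume_eq_prod]
      refine ContinuousOn.integrableOn_compact (hKt.prod hLt) ?_
      fun_prop
  · rw [indicator_of_notMem htI]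
    have htI' : t ∉ Icc (0 : ℝ) 1 := fun h => htI ⟨lt_of_le_of_ne h.1 (Ne.symm ht.1),
      lt_of_le_of_ne h.2 ht.2⟩
    have hz : ∀ p : (Fin k → ℝ) × (Fin l → ℝ), f (MeasurableEquiv.prodAssoc (p, t)) = 0 := by
      rintro ⟨u, v⟩
      change (joinSet K L).indicator G (u, v, t) = _
      refine indicator_of_notMem ?_ _
      rintro ⟨s, hs, x, hx, y, hy, he⟩
      simp only [Prod.mk.injEq] at he
      rw [he.2.2] at htI'
      exact htI' hs
    simp_rw [hz]
    simp

theorem betaInt_pos (k l : ℕ) : 0 < ∫ t in (0 : ℝ)..1, t ^ k * (1 - t) ^ l := by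
  refine intervalIntegral.intervalIntegral_pos_of_pos_on ?_ ?_ zero_lt_one
  · exact Continuous.intervalIntegrable (by fun_prop) _ _
  · intro t ht
    have h0 : 0 < t := ht.1
    have h1 : 0 < 1 - t := sub_pos.2 ht.2
    positivity

/-- C3: uniform law of the join (for convex `K`, `L` of positive finite volume); the translation in
the last coordinate is `t ↦ t - (k+1)/(k+l+2)`. -/
theorem isJoin_unif {k l : ℕ} {K : Set (Fin k → ℝ)} {L : Set (Fin l → ℝ)} (_hK : Convex ℝ K)
    (_hL : Convex ℝ L) (hKc : IsCompact K) (hLc : IsCompact L) (hK0 : volume K ≠ 0)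
    (hL0 : volume L ≠ 0) :
    IsJoin (k + 1) (l + 1) ((volume K)⁻¹ • volume.restrict K) ((volume L)⁻¹ • volume.restrict L)
      (((volume (joinSet K L))⁻¹ • volume.restrict (joinSet K L)).map
        (fun z => ((z.1, z.2.1, z.2.2 - ((k + 1 : ℕ) : ℝ) / (((k + 1 : ℕ) : ℝ) + ((l + 1 : ℕ) : ℝ))) :
          (Fin k → ℝ) × (Fin l → ℝ) × ℝ))) := by
  intro g hg
  set a : ℝ := ((k + 1 : ℕ) : ℝ) / (((k + 1 : ℕ) : ℝ) + ((l + 1 : ℕ) : ℝ)) with ha
  have hsh : Continuous (fun z : (Fin k → ℝ) × (Fin l → ℝ) × ℝ =>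
      ((z.1, z.2.1, z.2.2 - a) : (Fin k → ℝ) × (Fin l → ℝ) × ℝ)) := by fun_prop
  rw [integral_map hsh.aemeasurable hg.aestronglyMeasurable, integral_smul_measure]
  have hJ := isCompact_joinSet hKc hLc
  have hK1 : volume K ≠ ⊤ := hKc.measure_lt_top.ne
  have hL1 : volume L ≠ ⊤ := hLc.measure_lt_top.ne
  have hJ1 : volume (joinSet K L) ≠ ⊤ := hJ.measure_lt_top.ne
  set B : ℝ := ∫ t in (0 : ℝ)..1, t ^ k * (1 - t) ^ l with hB
  have hBp : 0 < B := betaInt_pos k l
  have hmain := integral_joinSet hKc hLc (fun z => g (z.1, z.2.1, z.2.2 - a)) (hg.comp hsh)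
  have hvol := integral_joinSet hKc hLc (fun _ => (1 : ℝ)) continuous_const
  simp only [integral_const, MeasurableSet.univ, measureReal_restrict_apply, univ_inter,
    smul_eq_mul, mul_one] at hvol
  have hK' : (volume K).toReal ≠ 0 := (ENNReal.toReal_pos hK0 hK1).ne'
  have hL' : (volume L).toReal ≠ 0 := (ENNReal.toReal_pos hL0 hL1).ne'
  have hV : (volume (joinSet K L)).toReal = (volume K).toReal * (volume L).toReal * B := by
    rw [show (volume (joinSet K L)).toReal = volume.real (joinSet K L) from rfl, hvol,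
      intervalIntegral.integral_mul_const, ← hB]
    simp only [Measure.real]
    ring
  have hlhs : (∫ t in (0 : ℝ)..1, t ^ (k + 1 - 1) * (1 - t) ^ (l + 1 - 1)) = B := by
    simp only [Nat.add_sub_cancel]; rfl
  rw [hlhs]
  have hrhs : (∫ t in (0 : ℝ)..1, t ^ (k + 1 - 1) * (1 - t) ^ (l + 1 - 1) *
      ∫ x, ∫ y, g (t • x, (1 - t) • y, t - ((k + 1 : ℕ) : ℝ) / (((k + 1 : ℕ) : ℝ) + ((l + 1 : ℕ) : ℝ)))
        ∂((volume L)⁻¹ • volume.restrict L) ∂((volume K)⁻¹ • volume.restrict K)) =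
      ((volume K).toReal)⁻¹ * ((volume L).toReal)⁻¹ *
      ∫ t in (0 : ℝ)..1, t ^ k * (1 - t) ^ l *
        ∫ x in K, ∫ y in L, g (t • x, (1 - t) • y, t - a) := by
    rw [← intervalIntegral.integral_const_mul]
    refine intervalIntegral.integral_congr (fun t _ => ?_)
    simp only [Nat.add_sub_cancel, integral_smul_measure, smul_eq_mul, ENNReal.toReal_inv]
    rw [integral_const_mul]
    ring
  rw [hrhs]
  simp only at hmain
  rw [hmain, smul_eq_mul, ENNReal.toReal_inv, hV]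
  field_simp

end Pool.Agent.Lib.MP_a34d76_pr.WM
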