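import Mathlib
import Pool.Agent.Lib.MP_a34d76_pr.Dual

/-!
# Weighted duality (MP_a34d76_pr)
-/

set_option autoImplicit false

open MeasureTheory Filter Topology
open scoped NNReal ENNReal

namespace Pool.Agent.Lib.MP_a34d76_pr.WM

/-- The weighted configurations. -/
def ConfW {E : Type*} [AddCommGroup E] [Module ℝ E] {n : ℕ} (w : Fin n → ℝ) (D : Set E) :
    Set (Fin n → E) :=
  {x | (∀ i, x i ∈ D) ∧ ∑ i, w i • x i = 0}

lemma isCompact_confW {E : Type*} [NormedAddCommGroup E] [NormedSpace ℝ E] {n : ℕ}
    (w : Fin n → ℝ) {D : Set E} (hD : IsCompact D) : IsCompact (ConfW w D) := by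
  have h1 : IsCompact (Set.pi Set.univ fun _ : Fin n => D) := isCompact_univ_pi fun _ => hD
  have h2 : IsClosed {x : Fin n → E | ∑ i, w i • x i = 0} :=
    isClosed_eq (by fun_prop) continuous_const
  have h3 : ConfW w D = (Set.pi Set.univ fun _ : Fin n => D) ∩ {x | ∑ i, w i • x i = 0} := by
    ext x; simp [ConfW]
  rw [h3]
  exact h1.inter_right h2

/-- Duality for weighted complete mixability. -/
theorem exists_coupling_w {E : Type*} [NormedAddCommGroup E] [NormedSpace ℝ E]
    [FiniteDimensional ℝ E] [MeasurableSpace E] [BorelSpace E] {n : ℕ} (hn : 0 < n)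
    (w : Fin n → ℝ) {D : Set E} (hD : IsCompact D) {Q : Measure E} [IsProbabilityMeasure Q]
    (hQ : ∀ᵐ x ∂Q, x ∈ D)
    (H : ∀ g : Fin n → C(E, ℝ), (∀ x : Fin n → E, (∀ i, x i ∈ D) → ∑ i, w i • x i = 0 →
      0 ≤ ∑ i, g i (x i)) → 0 ≤ ∑ i, ∫ x, g i x ∂Q) :
    ∃ P : Measure (Fin n → E), IsProbabilityMeasure P ∧ (∀ i, P.map (fun x => x i) = Q) ∧
      ∀ᵐ x ∂P, ∑ i, w i • x i = 0 := by
  have : ProperSpace E := FiniteDimensional.proper ℝ E
  have hint : ∀ g : C(E, ℝ), Integrable g Q := by
    intro g
    obtain ⟨C, hC⟩ := hD.exists_bound_of_continuousOn g.continuous.continuousOn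
    refine Integrable.of_bound g.continuous.aestronglyMeasurable C ?_
    filter_upwards [hQ] with x hx using hC x hx
  have hK := isCompact_confW w hD
  have : CompactSpace (ConfW w D) := isCompact_iff_compactSpace.1 hK
  obtain ⟨ev, hev⟩ : ∃ ev : Fin n → C(ConfW w D, E), ∀ i x, ev i x = x.1 i :=
    ⟨fun i => ⟨fun x => x.1 i, (continuous_apply i).comp continuous_subtype_val⟩,
      fun i x => rfl⟩
  obtain ⟨A, hAx⟩ : ∃ A : (Fin n → C(E, ℝ)) →ₗ[ℝ] C(ConfW w D, ℝ),
      ∀ g x, A g x = ∑ i, g i (x.1 i) := by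
    refine ⟨{ toFun := fun g => ∑ i, (g i).comp (ev i)
              map_add' := fun g g' => by
                rw [← Finset.sum_add_distrib]; rfl
              map_smul' := fun c g => by
                rw [RingHom.id_apply, Finset.smul_sum]; rfl }, fun g x => ?_⟩
    change (∑ i, (g i).comp (ev i)) x = _
    rw [ContinuousMap.sum_apply]
    refine Finset.sum_congr rfl fun i _ => ?_
    rw [ContinuousMap.comp_apply, hev]
  obtain ⟨L, hLx⟩ : ∃ L : (Fin n → C(E, ℝ)) →ₗ[ℝ] ℝ, ∀ g, L g = ∑ i, ∫ x, g i x ∂Q := by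
    refine ⟨{ toFun := fun g => ∑ i, ∫ x, g i x ∂Q
              map_add' := fun g g' => by
                rw [← Finset.sum_add_distrib]
                refine Finset.sum_congr rfl fun i _ => ?_
                exact integral_add (hint (g i)) (hint (g' i))
              map_smul' := fun c g => by
                rw [RingHom.id_apply, smul_eq_mul, Finset.mul_sum]
                refine Finset.sum_congr rfl fun i _ => ?_
                exact integral_const_mul c _ }, fun g => rfl⟩
  have hn' : (n : ℝ) ≠ 0 := by exact_mod_cast hn.ne'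
  obtain ⟨μ, hμ, hμi⟩ := exists_measure_of_nonneg A L (by
    intro g hg
    rw [hLx]
    refine H g fun x hx hx0 => ?_
    have := hg ⟨x, hx, hx0⟩
    rwa [hAx] at this) (fun _ => ContinuousMap.const _ (n : ℝ)⁻¹) (by
    ext x
    rw [hAx]
    simp [hn'])
  have hμ1 : μ Set.univ = 1 := by
    have h1 := hμi (fun _ => ContinuousMap.const _ (n : ℝ)⁻¹)
    rw [hLx] at h1
    have h2 : ∀ x, A (fun _ => ContinuousMap.const _ (n : ℝ)⁻¹) x = 1 := by
      intro x
      rw [hAx]
      simp [hn']
    simp_rw [h2] at h1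
    simp only [integral_const, smul_eq_mul, mul_one, ContinuousMap.const_apply, probReal_univ,
      one_mul, Finset.sum_const, Finset.card_univ, Fintype.card_fin, nsmul_eq_mul,
      mul_inv_cancel₀ hn'] at h1
    rw [Measure.real] at h1
    rw [← ENNReal.toReal_eq_one_iff]
    exact h1
  have hPμ : IsProbabilityMeasure μ := ⟨hμ1⟩
  refine ⟨μ.map Subtype.val, Measure.isProbabilityMeasure_map
    measurable_subtype_coe.aemeasurable, fun i => ?_, ?_⟩
  · rw [Measure.map_map (measurable_pi_apply i) measurable_subtype_coe]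
    have : IsProbabilityMeasure (μ.map ((fun x : Fin n → E => x i) ∘ Subtype.val)) :=
      Measure.isProbabilityMeasure_map
        ((measurable_pi_apply i).comp measurable_subtype_coe).aemeasurable
    apply ext_of_forall_integral_eq_of_IsFiniteMeasure
    intro φ
    rw [integral_map ((measurable_pi_apply i).comp measurable_subtype_coe).aemeasurable
      φ.continuous.aestronglyMeasurable]
    have h1 := hμi (Pi.single i φ.toContinuousMap)
    rw [hLx, Finset.sum_eq_single i] at h1
    · rw [Pi.single_eq_same] at h1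
      refine Eq.trans (integral_congr_ae (Eventually.of_forall fun x => ?_)) h1
      dsimp only
      rw [hAx, Finset.sum_eq_single i]
      · rw [Pi.single_eq_same]; rfl
      · intro j _ hj
        rw [Pi.single_eq_of_ne hj]; rfl
      · simp
    · intro j _ hj
      rw [Pi.single_eq_of_ne hj]
      simp
    · simp
  · rw [ae_map_iff measurable_subtype_coe.aemeasurable
      (measurableSet_eq_fun (by fun_prop) measurable_const)]
    exact Eventually.of_forall fun x => x.2.2

end Pool.Agent.Lib.MP_a34d76_pr.WM
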