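import Mathlib
import Pool.Agent.Lib.MP_a34d76_pr.WM.Defs
import Pool.Agent.Lib.MP_a34d76_pr.WM.Duality

/-!
# Closure under joins (MP_a34d76_pr), from the coupling of Beta laws
-/

set_option autoImplicit false

open MeasureTheory Set Filter
open scoped ENNReal

namespace Pool.Agent.Lib.MP_a34d76_pr.WM

/-- weighted joint mixability of the Beta laws with integer parameters -/
def BetaCoupling (p q : ℕ) : Prop :=
  ∀ (n : ℕ) (w : Fin n → ℝ), (∀ i, 0 ≤ w i) → (∀ i, (p + q : ℝ) * w i ≤ ∑ k, w k) →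
    ∃ σ : Measure (Fin n → ℝ), IsProbabilityMeasure σ ∧
      (∀ᵐ t ∂σ, (∀ i, t i ∈ Icc (0 : ℝ) 1) ∧ ∑ i, w i * t i = (∑ k, w k) * (p / (p + q))) ∧
      ∀ i, ∀ G : ℝ → ℝ, Continuous G →
        (∫ t in (0 : ℝ)..1, t ^ (p - 1) * (1 - t) ^ (q - 1)) * ∫ t, G (t i) ∂σ =
        ∫ t in (0 : ℝ)..1, t ^ (p - 1) * (1 - t) ^ (q - 1) * G t

theorem beta_pos (p q : ℕ) : 0 < ∫ t in (0 : ℝ)..1, t ^ (p - 1) * (1 - t) ^ (q - 1) := by
  refine intervalIntegral.intervalIntegral_pos_of_pos_on ?_ ?_ zero_lt_one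
  · exact Continuous.intervalIntegrable (by fun_prop) _ _
  · intro x hx
    exact mul_pos (pow_pos hx.1 _) (pow_pos (by linarith [hx.2]) _)

section

variable {E F : Type*} [NormedAddCommGroup E] [NormedSpace ℝ E] [FiniteDimensional ℝ E]
  [MeasurableSpace E] [BorelSpace E] [NormedAddCommGroup F] [NormedSpace ℝ F]
  [FiniteDimensional ℝ F] [MeasurableSpace F] [BorelSpace F]

/-- the point of the join -/
def jpt (c : ℝ) (t : ℝ) (z : E × F) : E × F × ℝ := (t • z.1, (1 - t) • z.2, t - c)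

theorem continuous_jpt (c : ℝ) : Continuous fun s : ℝ × (E × F) => jpt c s.1 s.2 := by
  unfold jpt
  fun_prop

/-- the compact set carrying the join -/
def jset (c : ℝ) (A : Set E) (B : Set F) : Set (E × F × ℝ) :=
  (fun s : ℝ × (E × F) => jpt c s.1 s.2) '' (Icc (0 : ℝ) 1 ×ˢ (A ×ˢ B))

theorem isCompact_jset (c : ℝ) {A : Set E} {B : Set F} (hA : IsCompact A) (hB : IsCompact B) :
    IsCompact (jset c A B) :=
  (isCompact_Icc.prod (hA.prod hB)).image (continuous_jpt c)

theorem jpt_mem {c t : ℝ} {A : Set E} {B : Set F} {x : E} {y : F} (ht : t ∈ Icc (0 : ℝ) 1)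
    (hx : x ∈ A) (hy : y ∈ B) : jpt c t (x, y) ∈ jset c A B :=
  ⟨(t, (x, y)), ⟨ht, hx, hy⟩, rfl⟩

theorem join_ae_mem {p q : ℕ} {μ : Measure E} {ν : Measure F} [IsProbabilityMeasure μ]
    [IsProbabilityMeasure ν] {A : Set E} {B : Set F} (hA : IsCompact A) (hB : IsCompact B)
    (hμA : ∀ᵐ x ∂μ, x ∈ A) (hνB : ∀ᵐ y ∂ν, y ∈ B) {ρ : Measure (E × F × ℝ)}
    [IsProbabilityMeasure ρ] (hρ : IsJoin p q μ ν ρ) :
    ∀ᵐ z ∂ρ, z ∈ jset (p / (p + q) : ℝ) A B := by
  have : ProperSpace E := FiniteDimensional.proper ℝ E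
  have : ProperSpace F := FiniteDimensional.proper ℝ F
  obtain ⟨D, hD⟩ : ∃ D, D = jset (p / (p + q) : ℝ) A B := ⟨_, rfl⟩
  have hDc : IsCompact D := hD ▸ isCompact_jset _ hA hB
  have hDn : D.Nonempty := by
    obtain ⟨x, hx⟩ := hμA.exists
    obtain ⟨y, hy⟩ := hνB.exists
    exact ⟨_, hD ▸ jpt_mem (t := 0) (by simp) hx hy⟩
  have hgc : Continuous fun z => min 1 (Metric.infDist z D) :=
    continuous_const.min (Metric.continuous_infDist_pt D)
  have h1 := hρ (fun z => min 1 (Metric.infDist z D)) hgc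
  have h2 : ∫ t in (0 : ℝ)..1, t ^ (p - 1) * (1 - t) ^ (q - 1) *
      ∫ x, ∫ y, (fun z => min 1 (Metric.infDist z D)) (t • x, (1 - t) • y, t - p / (p + q)) ∂ν ∂μ
      = ∫ t in (0 : ℝ)..1, (0 : ℝ) := by
    refine intervalIntegral.integral_congr fun t ht => ?_
    rw [uIcc_of_le zero_le_one] at ht
    have h3 : ∫ x, ∫ y, (fun z => min 1 (Metric.infDist z D))
        (t • x, (1 - t) • y, t - p / (p + q)) ∂ν ∂μ = ∫ x, (0 : ℝ) ∂μ := by
      refine integral_congr_ae ?_
      filter_upwards [hμA] with x hx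
      have h4 : ∫ y, (fun z => min 1 (Metric.infDist z D))
          (t • x, (1 - t) • y, t - p / (p + q)) ∂ν = ∫ y, (0 : ℝ) ∂ν := by
        refine integral_congr_ae ?_
        filter_upwards [hνB] with y hy
        have h5 : ((t • x, (1 - t) • y, t - p / (p + q)) : E × F × ℝ) ∈ D :=
          hD ▸ jpt_mem ht hx hy
        simp only [Metric.infDist_zero_of_mem h5]
        simp
      rw [h4]
      simp
    simp only [h3]
    simp
  rw [h2] at h1
  have h6 : ∫ z, min 1 (Metric.infDist z D) ∂ρ = 0 := by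
    have h7 := beta_pos p q
    simp only [intervalIntegral.integral_zero] at h1
    exact (mul_eq_zero.1 h1).resolve_left h7.ne'
  have h8 : ∀ z, 0 ≤ min 1 (Metric.infDist z D) := fun z =>
    le_min zero_le_one Metric.infDist_nonneg
  have h9 : Integrable (fun z => min 1 (Metric.infDist z D)) ρ := by
    refine Integrable.of_bound hgc.aestronglyMeasurable 1 (Eventually.of_forall fun z => ?_)
    rw [Real.norm_eq_abs, abs_of_nonneg (h8 z)]
    exact min_le_left _ _
  have h10 := (integral_eq_zero_iff_of_nonneg h8 h9).1 h6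
  filter_upwards [h10] with z hz
  rw [← hD, hDc.isClosed.mem_iff_infDist_zero hDn]
  have hz' : min 1 (Metric.infDist z D) = 0 := hz
  rcases min_choice (1 : ℝ) (Metric.infDist z D) with h | h
  · rw [h] at hz'; exact absurd hz' one_ne_zero
  · rw [h] at hz'; exact hz'

/-- closure under joins, from the coupling of Beta laws -/
theorem join_core {p q : ℕ} (hp : 0 < p) (hq : 0 < q) (hβ : BetaCoupling p q)
    {μ : Measure E} {ν : Measure F} [IsProbabilityMeasure μ] [IsProbabilityMeasure ν]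
    {A : Set E} {B : Set F} (hA : IsCompact A) (hB : IsCompact B) (hμA : ∀ᵐ x ∂μ, x ∈ A)
    (hνB : ∀ᵐ y ∂ν, y ∈ B) (hμ : WMix (p : ℝ) μ) (hν : WMix (q : ℝ) ν) {ρ : Measure (E × F × ℝ)}
    [IsProbabilityMeasure ρ] (hρ : IsJoin p q μ ν ρ) : WMix ((p + q : ℕ) : ℝ) ρ := by
  have : ProperSpace E := FiniteDimensional.proper ℝ E
  have : ProperSpace F := FiniteDimensional.proper ℝ F
  intro n w h0 h1
  rcases Nat.eq_zero_or_pos n with rfl | hn
  · exact ⟨Measure.dirac 0, inferInstance, fun i => i.elim0, Eventually.of_forall fun x => by simp⟩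
  obtain ⟨c, hc⟩ : ∃ c : ℝ, c = (p : ℝ) / (p + q) := ⟨_, rfl⟩
  have hp' : (0 : ℝ) < p := by exact_mod_cast hp
  have hq' : (0 : ℝ) < q := by exact_mod_cast hq
  have hDae := join_ae_mem hA hB hμA hνB hρ
  rw [← hc] at hDae
  have hDc := isCompact_jset c hA hB
  refine exists_coupling_w hn w hDc hDae ?_
  intro g hg
  push_cast at h1
  obtain ⟨σ, hσ, hσ1, hσ2⟩ := hβ n w h0 h1
  rw [← hc] at hσ1
  -- the averaged functions
  have hmem : ∀ᵐ z ∂(μ.prod ν), z ∈ A ×ˢ B := by
    have e1 := (Measure.quasiMeasurePreserving_fst (μ := μ) (ν := ν)).ae hμA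
    have e2 := (Measure.quasiMeasurePreserving_snd (μ := μ) (ν := ν)).ae hνB
    filter_upwards [e1, e2] with z hz1 hz2 using ⟨hz1, hz2⟩
  have hGc : ∀ i t, Continuous fun z : E × F => g i (jpt c t z) := by
    intro i t
    exact (g i).continuous.comp ((continuous_jpt c).comp (by fun_prop : Continuous fun z : E × F =>
      ((t, z) : ℝ × (E × F))))
  have hGi : ∀ i t, Integrable (fun z : E × F => g i (jpt c t z)) (μ.prod ν) := by
    intro i t
    obtain ⟨C, hC⟩ := (hA.prod hB).exists_bound_of_continuousOn (hGc i t).continuousOn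
    refine Integrable.of_bound (hGc i t).aestronglyMeasurable C ?_
    filter_upwards [hmem] with z hz using hC z hz
  obtain ⟨h, hh⟩ : ∃ h : Fin n → ℝ → ℝ, ∀ i t, h i t = ∫ z, g i (jpt c t z) ∂(μ.prod ν) :=
    ⟨fun i t => ∫ z, g i (jpt c t z) ∂(μ.prod ν), fun i t => rfl⟩
  have hfub : ∀ i t, ∫ x, ∫ y, g i (t • x, (1 - t) • y, t - p / (p + q)) ∂ν ∂μ = h i t := by
    intro i t
    rw [hh, integral_prod _ (hGi i t), hc]
    rfl
  have hhc : ∀ i, Continuous (h i) := by
    intro i
    have e0 : (μ.prod ν).restrict (A ×ˢ B) = μ.prod ν := Measure.restrict_eq_self_of_ae_mem hmem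
    have e1 : h i = fun t => ∫ z in A ×ˢ B, g i (jpt c t z) ∂(μ.prod ν) := by
      funext t
      rw [hh, e0]
    rw [e1]
    refine continuous_parametric_integral_of_continuous ?_ (hA.prod hB)
    exact (g i).continuous.comp (continuous_jpt c)
  -- pointwise inequality
  have hpt : ∀ t : Fin n → ℝ, (∀ i, t i ∈ Icc (0 : ℝ) 1) → ∑ i, w i * t i = (∑ k, w k) * c →
      0 ≤ ∑ i, h i (t i) := by
    intro t ht hts
    have hcp : (∑ k, w k) * c * (p + q) = (∑ k, w k) * p := by
      rw [hc]; field_simp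
    have hW1 : ∀ i, (p : ℝ) * (w i * t i) ≤ ∑ k, w k * t k := by
      intro i
      rw [hts]
      have e1 : w i * t i ≤ w i := mul_le_of_le_one_right (h0 i) (ht i).2
      have e2 : (p : ℝ) * (w i * t i) ≤ p * w i := mul_le_mul_of_nonneg_left e1 hp'.le
      refine e2.trans ?_
      have e3 := mul_le_mul_of_nonneg_left (h1 i) hp'.le
      have e4 : (p : ℝ) * w i * (p + q) ≤ (∑ k, w k) * c * (p + q) := by
        rw [hcp]; linarith
      exact le_of_mul_le_mul_right e4 (by linarith)
    have hW2s : ∑ k, w k * (1 - t k) = (∑ k, w k) * (1 - c) := by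
      have : ∀ k, w k * (1 - t k) = w k - w k * t k := fun k => by ring
      simp only [this]
      rw [Finset.sum_sub_distrib, hts]
      ring
    have hcq : (∑ k, w k) * (1 - c) * (p + q) = (∑ k, w k) * q := by
      rw [hc]; field_simp; ring
    have hW2 : ∀ i, (q : ℝ) * (w i * (1 - t i)) ≤ ∑ k, w k * (1 - t k) := by
      intro i
      rw [hW2s]
      have e1 : w i * (1 - t i) ≤ w i :=
        mul_le_of_le_one_right (h0 i) (by linarith [(ht i).1])
      have e2 : (q : ℝ) * (w i * (1 - t i)) ≤ q * w i := mul_le_mul_of_nonneg_left e1 hq'.le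
      refine e2.trans ?_
      have e3 := mul_le_mul_of_nonneg_left (h1 i) hq'.le
      have e4 : (q : ℝ) * w i * (p + q) ≤ (∑ k, w k) * (1 - c) * (p + q) := by
        rw [hcq]; linarith
      exact le_of_mul_le_mul_right e4 (by linarith)
    obtain ⟨P, hP, hPm, hP0⟩ := hμ n (fun i => w i * t i)
      (fun i => mul_nonneg (h0 i) (ht i).1) hW1
    obtain ⟨P', hP', hPm', hP0'⟩ := hν n (fun i => w i * (1 - t i))
      (fun i => mul_nonneg (h0 i) (by linarith [(ht i).2])) hW2
    have hmap : ∀ i, (P.prod P').map (Prod.map (fun x : Fin n → E => x i)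
        (fun y : Fin n → F => y i)) = μ.prod ν := by
      intro i
      rw [← Measure.map_prod_map _ _ (measurable_pi_apply i) (measurable_pi_apply i),
        hPm, hPm']
    have hmeas : ∀ i, Measurable (Prod.map (fun x : Fin n → E => x i)
        (fun y : Fin n → F => y i)) := fun i =>
      (measurable_pi_apply i).prodMap (measurable_pi_apply i)
    have hint' : ∀ i, Integrable (fun z : (Fin n → E) × (Fin n → F) =>
        g i (jpt c (t i) (z.1 i, z.2 i))) (P.prod P') := by
      intro i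
      have e1 := hGi i (t i)
      rw [← hmap i] at e1
      exact (integrable_map_measure e1.1 (hmeas i).aemeasurable).1 e1
    have hval : ∀ i, h i (t i) = ∫ z, g i (jpt c (t i) (z.1 i, z.2 i)) ∂(P.prod P') := by
      intro i
      rw [hh, ← hmap i, integral_map (hmeas i).aemeasurable
        (hGc i (t i)).aestronglyMeasurable]
      rfl
    simp only [hval]
    rw [← integral_finsetSum _ fun i _ => hint' i]
    refine integral_nonneg_of_ae ?_
    have hX : ∀ i, ∀ᵐ z ∂(P.prod P'), z.1 i ∈ A := by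
      intro i
      have e1 : ∀ᵐ x ∂P, x i ∈ A := by
        have e2 := hμA
        rw [← hPm i] at e2
        exact ae_of_ae_map (measurable_pi_apply i).aemeasurable e2
      exact (Measure.quasiMeasurePreserving_fst (μ := P) (ν := P')).ae e1
    have hY : ∀ i, ∀ᵐ z ∂(P.prod P'), z.2 i ∈ B := by
      intro i
      have e1 : ∀ᵐ x ∂P', x i ∈ B := by
        have e2 := hνB
        rw [← hPm' i] at e2
        exact ae_of_ae_map (measurable_pi_apply i).aemeasurable e2
      exact (Measure.quasiMeasurePreserving_snd (μ := P) (ν := P')).ae e1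
    have hX0 := (Measure.quasiMeasurePreserving_fst (μ := P) (ν := P')).ae hP0
    have hY0 := (Measure.quasiMeasurePreserving_snd (μ := P) (ν := P')).ae hP0'
    filter_upwards [ae_all_iff.2 hX, ae_all_iff.2 hY, hX0, hY0] with z hz1 hz2 hz3 hz4
    refine hg (fun i => jpt c (t i) (z.1 i, z.2 i)) (fun i => jpt_mem (ht i) (hz1 i) (hz2 i)) ?_
    refine Prod.ext ?_ (Prod.ext ?_ ?_)
    · rw [Prod.fst_sum]
      simp only [jpt, Prod.smul_fst, smul_smul, Prod.fst_zero]
      exact hz3
    · rw [Prod.snd_sum, Prod.fst_sum]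
      simp only [jpt, Prod.smul_fst, Prod.smul_snd, smul_smul, Prod.snd_zero, Prod.fst_zero]
      exact hz4
    · rw [Prod.snd_sum, Prod.snd_sum]
      simp only [jpt, Prod.smul_snd, Prod.snd_zero, smul_eq_mul, mul_sub]
      rw [Finset.sum_sub_distrib, hts, Finset.sum_mul, sub_self]
  -- conclusion
  have hBpos := beta_pos p q
  have hsum : ∀ i, ∫ z, g i z ∂ρ = ∫ t, h i (t i) ∂σ := by
    intro i
    have e1 := hρ (g i) (g i).continuous
    have e2 := hσ2 i (h i) (hhc i)
    simp only [hfub] at e1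
    rw [← e2] at e1
    exact mul_left_cancel₀ hBpos.ne' e1
  have hinth : ∀ i, Integrable (fun t : Fin n → ℝ => h i (t i)) σ := by
    intro i
    obtain ⟨C, hC⟩ := isCompact_Icc.exists_bound_of_continuousOn
      (s := Icc (0 : ℝ) 1) (hhc i).continuousOn
    refine Integrable.of_bound ((hhc i).comp (continuous_apply i)).aestronglyMeasurable C ?_
    filter_upwards [hσ1] with t ht using hC _ (ht.1 i)
  simp only [hsum]
  rw [← integral_finsetSum _ fun i _ => hinth i]
  refine integral_nonneg_of_ae ?_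
  filter_upwards [hσ1] with t ht using hpt t ht.1 ht.2

end

end Pool.Agent.Lib.MP_a34d76_pr.WM
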