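import Mathlib
import Pool.Agent.Lib.MP_a34d76_pr.WM.JoinCore
import Pool.Agent.Lib.MP_a34d76_pr.Join.Carpenter

/-!
# Weighted joint mixability of Beta laws from the unitary group (MP_a34d76_pr)
-/

set_option autoImplicit false

open MeasureTheory Set Filter
open scoped ENNReal

namespace Pool.Agent.Lib.MP_a34d76_pr.WM

/-- there is a random unitary matrix for which the squared norm of the first `p` coordinates of the
image of every unit vector has the law `Beta(p, q)` -/
def HaarBeta (p q : ℕ) : Prop :=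
  ∃ (Ω : Type) (_ : MeasurableSpace Ω) (σ : Measure Ω)
    (U : Ω → Matrix (Fin (p + q)) (Fin (p + q)) ℂ),
    IsProbabilityMeasure σ ∧ (∀ ω, U ω ∈ Matrix.unitaryGroup (Fin (p + q)) ℂ) ∧
    (∀ r s, Measurable fun ω => U ω r s) ∧
    ∀ a : Fin (p + q) → ℂ, ∑ r, ‖a r‖ ^ 2 = 1 → ∀ G : ℝ → ℝ, Continuous G →
      (∫ t in (0 : ℝ)..1, t ^ (p - 1) * (1 - t) ^ (q - 1)) *
        ∫ ω, G (∑ r : Fin p, ‖(U ω).mulVec a (Fin.castAdd q r)‖ ^ 2) ∂σ =
      ∫ t in (0 : ℝ)..1, t ^ (p - 1) * (1 - t) ^ (q - 1) * G t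

/-- the diagonal entries of `B * Bᴴ` -/
theorem diag_mul_conjTranspose {N n : ℕ} (B : Matrix (Fin N) (Fin n) ℂ) (r : Fin N) :
    (B * B.conjTranspose) r r = ((∑ i, ‖B r i‖ ^ 2 : ℝ) : ℂ) := by
  rw [Matrix.mul_apply]
  push_cast
  refine Finset.sum_congr rfl fun i _ => ?_
  rw [Matrix.conjTranspose_apply, RCLike.star_def, Complex.mul_conj, Complex.normSq_eq_norm_sq]
  push_cast
  rfl

/-- a unitary matrix preserves the sum of squares -/
theorem mulVec_unitary_sum_sq {N : ℕ} {U : Matrix (Fin N) (Fin N) ℂ}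
    (hU : U ∈ Matrix.unitaryGroup (Fin N) ℂ) (a : Fin N → ℂ) :
    ∑ r, ‖U.mulVec a r‖ ^ 2 = ∑ r, ‖a r‖ ^ 2 := by
  have h1 : ∀ b : Fin N → ℂ, ((∑ r, ‖b r‖ ^ 2 : ℝ) : ℂ) = star b ⬝ᵥ b := by
    intro b
    rw [dotProduct]
    push_cast
    refine Finset.sum_congr rfl fun i _ => ?_
    rw [Pi.star_apply, RCLike.star_def, mul_comm, Complex.mul_conj, Complex.normSq_eq_norm_sq]
    push_cast
    rfl
  have h2 : star (U.mulVec a) ⬝ᵥ (U.mulVec a) = star a ⬝ᵥ a := by
    rw [Matrix.star_mulVec, Matrix.dotProduct_mulVec, Matrix.vecMul_vecMul]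
    have h3 : U.conjTranspose * U = 1 := (Matrix.mem_unitaryGroup_iff').1 hU
    rw [h3, Matrix.vecMul_one]
  have h3 : ((∑ r, ‖U.mulVec a r‖ ^ 2 : ℝ) : ℂ) = ((∑ r, ‖a r‖ ^ 2 : ℝ) : ℂ) := by
    rw [h1, h1, h2]
  exact_mod_cast h3

/-- weighted tight frames of unit vectors -/
theorem exists_tight_frame {N n : ℕ} (hN : 0 < N) (w : Fin n → ℝ) (h0 : ∀ i, 0 ≤ w i)
    (h1 : ∀ i, (N : ℝ) * w i ≤ ∑ k, w k) :
    ∃ a : Fin n → Fin N → ℂ, (∀ i, ∑ r, ‖a i r‖ ^ 2 = 1) ∧
      ∀ U ∈ Matrix.unitaryGroup (Fin N) ℂ, ∀ r,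
        ∑ i, w i * ‖U.mulVec (a i) r‖ ^ 2 = (∑ k, w k) / N := by
  classical
  have hN' : (0 : ℝ) < N := by exact_mod_cast hN
  have hunit : ∑ r, ‖(Pi.single (⟨0, hN⟩ : Fin N) (1 : ℂ) : Fin N → ℂ) r‖ ^ 2 = (1 : ℝ) := by
    rw [Finset.sum_eq_single (⟨0, hN⟩ : Fin N)]
    · simp
    · intro b _ hb
      simp [hb]
    · intro hb
      exact absurd (Finset.mem_univ _) hb
  rcases (Finset.sum_nonneg fun k (_ : k ∈ Finset.univ) => h0 k).eq_or_lt with hW | hW
  · have hw : ∀ i, w i = 0 := by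
      intro i
      exact (Finset.sum_eq_zero_iff_of_nonneg fun k _ => h0 k).1 hW.symm i (Finset.mem_univ _)
    refine ⟨fun _ => Pi.single ⟨0, hN⟩ 1, fun _ => hunit, fun U _ r => ?_⟩
    simp [hw]
  · obtain ⟨W, hWd⟩ : ∃ W, W = ∑ k, w k := ⟨_, rfl⟩
    rw [← hWd] at hW h1
    obtain ⟨A, hA, hAc⟩ := Join.carpenter (N := N) (fun i => N * w i / W)
      (fun i => div_nonneg (mul_nonneg hN'.le (h0 i)) hW.le)
      (fun i => (div_le_one hW).2 (h1 i)) (by
        rw [← Finset.sum_div, ← Finset.mul_sum, ← hWd, mul_div_assoc, div_self hW.ne', mul_one])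
    refine ⟨fun i => if w i = 0 then Pi.single ⟨0, hN⟩ 1
      else fun r => ((Real.sqrt (N * w i / W))⁻¹ : ℝ) * A r i, fun i => ?_, fun U hU r => ?_⟩
    · by_cases hi : w i = 0
      · simp only [hi, if_true]
        exact hunit
      · simp only [hi, if_false]
        have hpos : 0 < N * w i / W := div_pos (mul_pos hN' (lt_of_le_of_ne (h0 i) (Ne.symm hi))) hW
        have e1 : ∀ r, ‖(((Real.sqrt (N * w i / W))⁻¹ : ℝ) : ℂ) * A r i‖ ^ 2
            = (N * w i / W)⁻¹ * ‖A r i‖ ^ 2 := by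
          intro r
          rw [norm_mul, mul_pow, Complex.norm_real, Real.norm_eq_abs, sq_abs, inv_pow,
            Real.sq_sqrt hpos.le]
        simp only [e1]
        rw [← Finset.mul_sum, hAc, inv_mul_cancel₀ hpos.ne']
    · have e2 : ∀ i, w i * ‖U.mulVec (if w i = 0 then Pi.single ⟨0, hN⟩ 1
          else fun r => (((Real.sqrt (N * w i / W))⁻¹ : ℝ) : ℂ) * A r i) r‖ ^ 2
          = W / N * ‖(U * A) r i‖ ^ 2 := by
        intro i
        by_cases hi : w i = 0
        · have e3 : ∀ s, A s i = 0 := by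
            intro s
            have e4 := hAc i
            simp only [hi, mul_zero, zero_div] at e4
            have e5 := (Finset.sum_eq_zero_iff_of_nonneg fun k _ => sq_nonneg _).1 e4 s
              (Finset.mem_univ _)
            exact norm_eq_zero.1 (pow_eq_zero_iff (two_ne_zero)|>.1 e5)
          have e6 : (U * A) r i = 0 := by
            rw [Matrix.mul_apply]
            simp [e3]
          rw [e6]
          simp [hi]
        · simp only [hi, if_false]
          have hpos : 0 < N * w i / W :=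
            div_pos (mul_pos hN' (lt_of_le_of_ne (h0 i) (Ne.symm hi))) hW
          have e7 : U.mulVec (fun r => (((Real.sqrt (N * w i / W))⁻¹ : ℝ) : ℂ) * A r i) r
              = (((Real.sqrt (N * w i / W))⁻¹ : ℝ) : ℂ) * (U * A) r i := by
            rw [Matrix.mul_apply, Matrix.mulVec, dotProduct, Finset.mul_sum]
            refine Finset.sum_congr rfl fun s _ => ?_
            ring
          rw [e7, norm_mul, mul_pow, Complex.norm_real, Real.norm_eq_abs, sq_abs, inv_pow,
            Real.sq_sqrt hpos.le]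
          field_simp
      simp only [e2]
      rw [← Finset.mul_sum, ← hWd]
      have e8 : ∑ i, ‖(U * A) r i‖ ^ 2 = (1 : ℝ) := by
        have e9 := diag_mul_conjTranspose (U * A) r
        have e10 : (U * A) * (U * A).conjTranspose = 1 := by
          rw [Matrix.conjTranspose_mul, Matrix.mul_assoc, ← Matrix.mul_assoc A, hA, Matrix.one_mul]
          exact (Matrix.mem_unitaryGroup_iff).1 hU
        rw [e10, Matrix.one_apply_eq] at e9
        exact_mod_cast e9.symm
      rw [e8, mul_one]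

theorem betaCoupling_of_haar {p q : ℕ} (hp : 0 < p) (H : HaarBeta p q) : BetaCoupling p q := by
  intro n w h0 h1
  obtain ⟨Ω, mΩ, σ, U, hσ, hU, hUm, hlaw⟩ := H
  obtain ⟨a, ha, hfr⟩ := exists_tight_frame (N := p + q) (by omega) w h0 (by
    intro i
    push_cast
    exact h1 i)
  obtain ⟨T, hT⟩ : ∃ T : Ω → Fin n → ℝ,
      T = fun ω i => ∑ r : Fin p, ‖(U ω).mulVec (a i) (Fin.castAdd q r)‖ ^ 2 := ⟨_, rfl⟩
  have hTm : Measurable T := by
    rw [hT]
    refine measurable_pi_lambda _ fun i => ?_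
    refine Finset.measurable_fun_sum _ fun r _ => ?_
    have h2 : Measurable fun ω => (U ω).mulVec (a i) (Fin.castAdd q r) := by
      unfold Matrix.mulVec dotProduct
      refine Finset.measurable_fun_sum _ fun s _ => ?_
      exact (hUm _ s).mul_const _
    exact h2.norm.pow_const 2
  have hprob : IsProbabilityMeasure (σ.map T) := Measure.isProbabilityMeasure_map hTm.aemeasurable
  refine ⟨σ.map T, hprob, ?_, ?_⟩
  · rw [ae_map_iff hTm.aemeasurable]
    · refine Eventually.of_forall fun ω => ⟨fun i => ⟨?_, ?_⟩, ?_⟩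
      · rw [hT]
        exact Finset.sum_nonneg fun r _ => sq_nonneg _
      · have e1 := mulVec_unitary_sum_sq (hU ω) (a i)
        rw [ha i, Fin.sum_univ_add] at e1
        rw [hT]
        have e2 : 0 ≤ ∑ r : Fin q, ‖(U ω).mulVec (a i) (Fin.natAdd p r)‖ ^ 2 :=
          Finset.sum_nonneg fun r _ => sq_nonneg _
        change ∑ r : Fin p, ‖(U ω).mulVec (a i) (Fin.castAdd q r)‖ ^ 2 ≤ 1
        linarith
      · rw [hT]
        simp only [Finset.mul_sum]
        rw [Finset.sum_comm]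
        simp only [hfr (U ω) (hU ω)]
        rw [Finset.sum_const, Finset.card_univ, Fintype.card_fin, nsmul_eq_mul]
        push_cast
        ring
    · have e1 : MeasurableSet {t : Fin n → ℝ | ∀ i, t i ∈ Icc (0 : ℝ) 1} := by
        have : {t : Fin n → ℝ | ∀ i, t i ∈ Icc (0 : ℝ) 1} = Set.pi univ fun _ => Icc (0 : ℝ) 1 := by
          ext t; simp only [Set.mem_ofPred_eq, Set.mem_pi, Set.mem_univ, forall_const]
        rw [this]
        exact MeasurableSet.univ_pi fun _ => measurableSet_Icc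
      have e2 : MeasurableSet {t : Fin n → ℝ |
          ∑ i, w i * t i = (∑ k, w k) * ((p : ℝ) / (p + q))} :=
        measurableSet_eq_fun (by fun_prop) measurable_const
      exact e1.inter e2
  · intro i G hG
    have e1 : ∫ t, G (t i) ∂(σ.map T) = ∫ ω, G (T ω i) ∂σ := by
      rw [integral_map hTm.aemeasurable]
      exact (hG.comp (continuous_apply i)).aestronglyMeasurable
    rw [e1, hT]
    exact hlaw (a i) (ha i) G hG

end Pool.Agent.Lib.MP_a34d76_pr.WM
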