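import Mathlib

/-!
# Polar integration in `ℂ^p × ℂ^q` and the Beta law (MP_a34d76_pr)
-/

set_option autoImplicit false

open MeasureTheory Set
open scoped ENNReal

namespace Pool.Agent.Lib.MP_a34d76_pr.WM

/-- polar integration in `ℂ^p`, in the variable `|z|^2` -/
theorem radial {p : ℕ} (hp : 0 < p) : ∃ c : ℝ, 0 < c ∧ ∀ f : ℝ → ℝ,
    ∫ z : Fin p → ℂ, f (∑ i, ‖z i‖ ^ 2) = c * ∫ x in Ioi (0 : ℝ), x ^ (p - 1) * f x := by
  have hne : Nonempty (Fin p) := ⟨⟨0, hp⟩⟩
  set L : (Fin p → ℂ) ≃L[ℝ] EuclideanSpace ℂ (Fin p) :=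
    (PiLp.continuousLinearEquiv 2 ℝ (fun _ : Fin p => ℂ)).symm with hL
  set μ : Measure (EuclideanSpace ℂ (Fin p)) := volume.map L with hμ
  have hnt : Nontrivial (EuclideanSpace ℂ (Fin p)) := inferInstance
  have hfin : Module.finrank ℝ (EuclideanSpace ℂ (Fin p)) = 2 * p := by
    rw [finrank_real_of_complex, finrank_euclideanSpace_fin]
  refine ⟨p * μ.real (Metric.ball 0 1), ?_, fun f => ?_⟩
  · refine mul_pos (by exact_mod_cast hp) ?_
    rw [Measure.real]
    exact ENNReal.toReal_pos (Metric.measure_ball_pos μ _ one_pos).ne' measure_ball_lt_top.ne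
  · have h1 : ∫ z : Fin p → ℂ, f (∑ i, ‖z i‖ ^ 2) = ∫ x, f (‖x‖ ^ 2) ∂μ := by
      have hemb : MeasurableEmbedding L := L.toHomeomorph.measurableEmbedding
      rw [hμ, hemb.integral_map]
      refine integral_congr_ae (Filter.Eventually.of_forall fun z => ?_)
      dsimp only
      congr 1
      rw [EuclideanSpace.norm_sq_eq]
      rfl
    have h2 := integral_fun_norm_addHaar μ (fun r => f (r ^ 2))
    rw [h1, h2, hfin]
    have h3 := integral_comp_rpow_Ioi_of_pos (g := fun y : ℝ => (1 / 2) * (y ^ (p - 1) * f y))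
      (show (0 : ℝ) < 2 by norm_num)
    have h4 : ∫ y in Ioi (0 : ℝ), y ^ (2 * p - 1) • f (y ^ 2) =
        ∫ y in Ioi (0 : ℝ), (1 / 2) * (y ^ (p - 1) * f y) := by
      rw [← h3]
      refine setIntegral_congr_fun measurableSet_Ioi fun x hx => ?_
      have hx : (0 : ℝ) < x := hx
      simp only [smul_eq_mul]
      have e1 : x ^ ((2 : ℝ) - 1) = x := by
        rw [show (2 : ℝ) - 1 = 1 by norm_num, Real.rpow_one]
      have e2 : x ^ (2 : ℝ) = x ^ 2 := Real.rpow_two x
      rw [e1, e2, ← pow_mul]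
      have e3 : x ^ (2 * p - 1) = x * x ^ (2 * (p - 1)) := by
        rw [← pow_succ']
        congr 1
        omega
      rw [e3]
      ring
    rw [h4, integral_const_mul]
    simp only [smul_eq_mul, nsmul_eq_mul]
    push_cast
    ring

/-- the triangle integrand -/
noncomputable def Psi (p q : ℕ) (G : ℝ → ℝ) (x s : ℝ) : ℝ :=
  if 0 < x ∧ x < s ∧ s ≤ 1 then x ^ (p - 1) * ((s - x) ^ (q - 1) * G (x / s)) else 0

theorem integrable_Psi (p q : ℕ) {G : ℝ → ℝ} (hG : Continuous G) :
    Integrable (Function.uncurry (Psi p q G)) (volume.prod volume) := by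
  obtain ⟨M, hM⟩ := isCompact_Icc.exists_bound_of_continuousOn (s := Icc (0 : ℝ) 1)
    hG.continuousOn
  have hM0 : 0 ≤ M := (norm_nonneg _).trans (hM 0 ⟨le_rfl, zero_le_one⟩)
  have hS : MeasurableSet {z : ℝ × ℝ | 0 < z.1 ∧ z.1 < z.2 ∧ z.2 ≤ 1} :=
    (measurableSet_lt measurable_const measurable_fst).inter
      ((measurableSet_lt measurable_fst measurable_snd).inter
        (measurableSet_le measurable_snd measurable_const))
  have hmeas : Measurable (Function.uncurry (Psi p q G)) := by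
    have h1 : Measurable fun z : ℝ × ℝ =>
        z.1 ^ (p - 1) * ((z.2 - z.1) ^ (q - 1) * G (z.1 / z.2)) := by
      have := hG.measurable
      fun_prop
    exact Measurable.ite hS h1 measurable_const
  have hK : IsCompact (Icc (0 : ℝ) 1 ×ˢ Icc (0 : ℝ) 1) := isCompact_Icc.prod isCompact_Icc
  have hI : Integrable ((Icc (0 : ℝ) 1 ×ˢ Icc (0 : ℝ) 1).indicator fun _ : ℝ × ℝ => M)
      (volume.prod volume) := by
    rw [integrable_indicator_iff (measurableSet_Icc.prod measurableSet_Icc)]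
    rw [← Measure.volume_eq_prod]
    exact integrableOn_const hK.measure_lt_top.ne
  refine hI.mono' hmeas.aestronglyMeasurable (Filter.Eventually.of_forall ?_)
  rintro ⟨x, s⟩
  simp only [Function.uncurry, Psi]
  split_ifs with h
  · have hmem : ((x, s) : ℝ × ℝ) ∈ Icc (0 : ℝ) 1 ×ˢ Icc (0 : ℝ) 1 :=
      ⟨⟨h.1.le, by linarith⟩, ⟨by linarith, h.2.2⟩⟩
    rw [indicator_of_mem hmem, norm_mul, norm_mul]
    have h1 : ‖x ^ (p - 1)‖ ≤ 1 := by
      rw [norm_pow, Real.norm_eq_abs, abs_of_pos h.1]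
      exact pow_le_one₀ h.1.le (by linarith)
    have h2 : ‖(s - x) ^ (q - 1)‖ ≤ 1 := by
      rw [norm_pow, Real.norm_eq_abs, abs_of_pos (by linarith)]
      exact pow_le_one₀ (by linarith) (by linarith)
    have hs : 0 < s := by linarith
    have h3 : ‖G (x / s)‖ ≤ M := by
      refine hM _ ⟨div_nonneg h.1.le hs.le, ?_⟩
      rw [div_le_one hs]
      exact h.2.1.le
    calc ‖x ^ (p - 1)‖ * (‖(s - x) ^ (q - 1)‖ * ‖G (x / s)‖)
        ≤ 1 * (1 * M) := by gcongr
      _ = M := by ring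
  · rw [norm_zero]
    exact indicator_nonneg (fun _ _ => hM0) _

theorem planar_beta {p q : ℕ} (hp : 0 < p) (hq : 0 < q) {G : ℝ → ℝ} (hG : Continuous G) :
    ∫ x in Ioi (0 : ℝ), x ^ (p - 1) *
        ∫ y in Ioi (0 : ℝ), y ^ (q - 1) * (if x + y ≤ 1 then G (x / (x + y)) else 0) =
      (∫ s in (0 : ℝ)..1, s ^ (p + q - 1)) *
        ∫ t in (0 : ℝ)..1, t ^ (p - 1) * (1 - t) ^ (q - 1) * G t := by
  have h1 : ∫ x in Ioi (0 : ℝ), x ^ (p - 1) *
        ∫ y in Ioi (0 : ℝ), y ^ (q - 1) * (if x + y ≤ 1 then G (x / (x + y)) else 0) =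
      ∫ x : ℝ, ∫ s : ℝ, Psi p q G x s := by
    rw [← integral_indicator measurableSet_Ioi]
    refine integral_congr_ae (Filter.Eventually.of_forall fun x => ?_)
    by_cases hx : x ∈ Ioi (0 : ℝ)
    · dsimp only
      rw [indicator_of_mem hx]
      have hx0 : 0 < x := hx
      rw [← integral_indicator measurableSet_Ioi, ← integral_const_mul,
        ← integral_sub_right_eq_self (fun y : ℝ => x ^ (p - 1) * (Ioi (0 : ℝ)).indicator
          (fun y => y ^ (q - 1) * (if x + y ≤ 1 then G (x / (x + y)) else 0)) y) x]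
      refine integral_congr_ae (Filter.Eventually.of_forall fun s => ?_)
      simp only [indicator, mem_Ioi, sub_pos, Psi, add_sub_cancel]
      by_cases h2 : x < s
      · by_cases h3 : s ≤ 1
        · rw [if_pos h2, if_pos h3, if_pos ⟨hx0, h2, h3⟩]
        · rw [if_pos h2, if_neg h3, if_neg (fun h => h3 h.2.2)]
          ring
      · rw [if_neg h2, if_neg (fun h => h2 h.2.1)]
        ring
    · dsimp only
      rw [indicator_of_notMem hx]
      have h2 : ∀ s, Psi p q G x s = 0 := fun s => if_neg (fun h => hx h.1)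
      simp_rw [h2]
      simp
  rw [h1, integral_integral_swap (integrable_Psi p q hG)]
  have h2 : ∀ s : ℝ, ∫ x : ℝ, Psi p q G x s = (Ioc (0 : ℝ) 1).indicator (fun s => s ^ (p + q - 1) *
      ∫ t in (0 : ℝ)..1, t ^ (p - 1) * (1 - t) ^ (q - 1) * G t) s := by
    intro s
    by_cases hs : s ∈ Ioc (0 : ℝ) 1
    · rw [indicator_of_mem hs]
      have h3 : ∫ x : ℝ, Psi p q G x s =
          ∫ x in (0 : ℝ)..s, x ^ (p - 1) * ((s - x) ^ (q - 1) * G (x / s)) := by
        rw [intervalIntegral.integral_of_le hs.1.le, integral_Ioc_eq_integral_Ioo,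
          ← integral_indicator measurableSet_Ioo]
        refine integral_congr_ae (Filter.Eventually.of_forall fun x => ?_)
        simp only [indicator, mem_Ioo, Psi]
        by_cases hx : 0 < x ∧ x < s
        · rw [if_pos hx, if_pos ⟨hx.1, hx.2, hs.2⟩]
        · rw [if_neg hx, if_neg (fun h => hx ⟨h.1, h.2.1⟩)]
      rw [h3]
      have h4 := intervalIntegral.integral_comp_mul_left (a := 0) (b := 1)
        (fun x => x ^ (p - 1) * ((s - x) ^ (q - 1) * G (x / s))) hs.1.ne'
      rw [mul_zero, mul_one, smul_eq_mul] at h4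
      have h5 : ∫ x in (0 : ℝ)..s, x ^ (p - 1) * ((s - x) ^ (q - 1) * G (x / s)) =
          s * ∫ t in (0 : ℝ)..1, (s * t) ^ (p - 1) * ((s - s * t) ^ (q - 1) * G (s * t / s)) := by
        rw [h4, mul_inv_cancel_left₀ hs.1.ne']
      rw [h5, ← intervalIntegral.integral_const_mul, ← intervalIntegral.integral_const_mul]
      refine intervalIntegral.integral_congr fun t _ => ?_
      have e1 : s * t / s = t := by
        rw [mul_comm, mul_div_assoc, div_self hs.1.ne', mul_one]
      have e2 : s - s * t = s * (1 - t) := by ring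
      have e3 : s ^ (p + q - 1) = s * s ^ (p - 1) * s ^ (q - 1) := by
        rw [← pow_succ', ← pow_add]
        congr 1
        omega
      rw [e1, e2, mul_pow, mul_pow, e3]
      ring
    · rw [indicator_of_notMem hs]
      have h3 : ∀ x, Psi p q G x s = 0 := fun x =>
        if_neg (fun h => hs ⟨h.1.trans h.2.1, h.2.2⟩)
      simp_rw [h3]
      simp
  simp_rw [h2]
  rw [integral_indicator measurableSet_Ioc, integral_mul_const,
    ← intervalIntegral.integral_of_le zero_le_one]

end Pool.Agent.Lib.MP_a34d76_pr.WM
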