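import Mathlib

/-!
# The unitary group: Haar probability and transitivity on the sphere (MP_a34d76_pr)
-/

set_option autoImplicit false

open MeasureTheory Matrix Topology

namespace Pool.Agent.Lib.MP_a34d76_pr.WM

variable {ι : Type} [Fintype ι] [DecidableEq ι]

/-- the unitary group -/
abbrev UG (ι : Type) [Fintype ι] [DecidableEq ι] := Matrix.unitaryGroup ι ℂ

instance compactSpace_UG : CompactSpace (UG ι) := by
  have h1 : IsCompact (Set.pi Set.univ fun _ : ι => Set.pi Set.univ fun _ : ι =>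
      Metric.closedBall (0 : ℂ) 1) :=
    isCompact_univ_pi fun _ => isCompact_univ_pi fun _ => isCompact_closedBall _ _
  have h2 : IsClosed ((UG ι : Submonoid (Matrix ι ι ℂ)) : Set (Matrix ι ι ℂ)) := isClosed_unitary
  have h3 : IsCompact ((UG ι : Submonoid (Matrix ι ι ℂ)) : Set (Matrix ι ι ℂ)) := by
    refine h1.of_isClosed_subset h2 ?_
    intro U hU i _ k _
    have := entry_norm_bound_of_unitary (𝕜 := ℂ) hU i k
    simpa using this
  exact isCompact_iff_compactSpace.1 h3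

/-- the action of the inverse -/
def uact (U : UG ι) (x : ι → ℂ) : ι → ℂ := ((U⁻¹ : UG ι) : Matrix ι ι ℂ) *ᵥ x

theorem uact_mul (V U : UG ι) (x : ι → ℂ) : uact (V * U) x = uact U (uact V x) := by
  unfold uact
  rw [_root_.mul_inv_rev, Submonoid.coe_mul, ← Matrix.mulVec_mulVec]

theorem uact_smul (U : UG ι) (c : ℝ) (x : ι → ℂ) : uact U (c • x) = c • uact U x := by
  unfold uact
  rw [Matrix.mulVec_smul]

theorem continuous_uact : Continuous fun p : (ι → ℂ) × UG ι => uact p.2 p.1 := by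
  unfold uact
  refine Continuous.matrix_mulVec ?_ continuous_fst
  exact continuous_subtype_val.comp (continuous_inv.comp continuous_snd)

theorem star_dot_self (x : ι → ℂ) : star x ⬝ᵥ x = ((∑ i, ‖x i‖ ^ 2 : ℝ) : ℂ) := by
  simp only [dotProduct, Pi.star_apply]
  push_cast
  refine Finset.sum_congr rfl fun i _ => ?_
  rw [← Complex.ofReal_pow, ← Complex.normSq_eq_norm_sq, Complex.normSq_eq_conj_mul_self]
  rfl

theorem unitary_sum_sq {M : Matrix ι ι ℂ} (hM : M ∈ UG ι) (x : ι → ℂ) :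
    ∑ i, ‖(M *ᵥ x) i‖ ^ 2 = ∑ i, ‖x i‖ ^ 2 := by
  have h1 : star M * M = 1 := (Matrix.mem_unitaryGroup_iff'.1 hM)
  have h2 : star (M *ᵥ x) ⬝ᵥ (M *ᵥ x) = star x ⬝ᵥ x := by
    rw [Matrix.star_mulVec, Matrix.dotProduct_mulVec, Matrix.vecMul_vecMul]
    rw [← Matrix.star_eq_conjTranspose, h1, Matrix.vecMul_one]
  rw [star_dot_self, star_dot_self] at h2
  exact_mod_cast h2

theorem uact_sum_sq (U : UG ι) (x : ι → ℂ) : ∑ i, ‖uact U x i‖ ^ 2 = ∑ i, ‖x i‖ ^ 2 :=
  unitary_sum_sq (U⁻¹ : UG ι).2 x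

/-- transitivity when the inner product is real -/
theorem exists_reflection (x y : ι → ℂ) (hs : ∑ i, ‖x i‖ ^ 2 = ∑ i, ‖y i‖ ^ 2)
    (hreal : star x ⬝ᵥ y = star y ⬝ᵥ x) : ∃ H ∈ UG ι, H *ᵥ x = y := by
  rcases eq_or_ne x y with rfl | hne
  · exact ⟨1, one_mem _, Matrix.one_mulVec x⟩
  obtain ⟨w, hw⟩ : ∃ w : ι → ℂ, w = x - y := ⟨_, rfl⟩
  have hxy : star x ⬝ᵥ x = star y ⬝ᵥ y := by rw [star_dot_self, star_dot_self, hs]
  obtain ⟨c, hc⟩ : ∃ c : ℝ, c = ∑ i, ‖w i‖ ^ 2 := ⟨_, rfl⟩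
  have hww : star w ⬝ᵥ w = (c : ℂ) := by rw [hc, star_dot_self]
  have hc0 : (c : ℂ) ≠ 0 := by
    rw [Complex.ofReal_ne_zero]
    intro h
    rw [hc] at h
    have h5 := (Finset.sum_eq_zero_iff_of_nonneg (fun i _ => sq_nonneg ‖w i‖)).1 h
    apply hne
    rw [← sub_eq_zero, ← hw]
    ext i
    have h6 := h5 i (Finset.mem_univ i)
    simpa using h6
  obtain ⟨H, hH⟩ : ∃ H : Matrix ι ι ℂ, H = 1 - (2 / (c : ℂ)) • Matrix.vecMulVec w (star w) :=
    ⟨_, rfl⟩
  have hHv : ∀ v, H *ᵥ v = v - (2 * (star w ⬝ᵥ v) / (c : ℂ)) • w := by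
    intro v
    rw [hH, Matrix.sub_mulVec, Matrix.one_mulVec, Matrix.smul_mulVec, Matrix.vecMulVec_mulVec]
    ext i
    simp only [Pi.sub_apply, Pi.smul_apply, smul_eq_mul, MulOpposite.smul_eq_mul_unop,
      MulOpposite.unop_op]
    ring
  have hHT : star H = H := by
    rw [hH, star_sub, star_one, star_smul, Matrix.star_eq_conjTranspose,
      Matrix.conjTranspose_vecMulVec, star_star]
    congr 2
    simp
  have hHH : H * H = 1 := by
    apply Matrix.toLin'.injective
    apply LinearMap.ext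
    intro v
    rw [Matrix.toLin'_apply, Matrix.toLin'_apply, ← Matrix.mulVec_mulVec, Matrix.one_mulVec,
      hHv v, hHv]
    rw [dotProduct_sub, dotProduct_smul, smul_eq_mul, hww]
    ext i
    simp only [Pi.sub_apply, Pi.smul_apply, smul_eq_mul]
    field_simp
    ring
  refine ⟨H, ?_, ?_⟩
  · rw [Matrix.mem_unitaryGroup_iff, hHT, hHH]
  · rw [hHv]
    have h1 : star w ⬝ᵥ x = star x ⬝ᵥ x - star x ⬝ᵥ y := by
      rw [hw, star_sub, sub_dotProduct, hreal]
    have h2 : (c : ℂ) = 2 * (star x ⬝ᵥ x - star x ⬝ᵥ y) := by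
      rw [← hww, hw, star_sub, sub_dotProduct, dotProduct_sub, dotProduct_sub, ← hxy, ← hreal]
      ring
    have h3 : 2 * (star w ⬝ᵥ x) / (c : ℂ) = 1 := by
      rw [div_eq_one_iff_eq hc0, h1, h2]
    rw [h3, one_smul, hw]
    abel

/-- transitivity of the unitary group on spheres -/
theorem exists_uact (x y : ι → ℂ) (hs : ∑ i, ‖x i‖ ^ 2 = ∑ i, ‖y i‖ ^ 2) :
    ∃ V : UG ι, uact V x = y := by
  obtain ⟨ω, hω, hreal⟩ : ∃ ω : ℂ, ω * star ω = 1 ∧
      star x ⬝ᵥ (ω • y) = star (ω • y) ⬝ᵥ x := by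
    obtain ⟨c, hc⟩ : ∃ c : ℂ, c = star x ⬝ᵥ y := ⟨_, rfl⟩
    have hc' : star y ⬝ᵥ x = star c := by
      rw [hc, ← Matrix.star_dotProduct_star, star_star]
    by_cases h0 : c = 0
    · refine ⟨1, by simp, ?_⟩
      rw [one_smul, hc', ← hc, h0, star_zero]
    · have hn : (‖c‖ : ℂ) ≠ 0 := by
        rw [Complex.ofReal_ne_zero]
        exact norm_ne_zero_iff.2 h0
      have hcc : c * star c = (‖c‖ : ℂ) * ‖c‖ := by
        have := Complex.mul_conj c
        rw [Complex.normSq_eq_norm_sq] at this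
        rw [Complex.star_def, this]
        push_cast
        ring
      refine ⟨star c / ‖c‖, ?_, ?_⟩
      · rw [star_div₀, star_star]
        simp only [Complex.star_def, Complex.conj_ofReal] at hcc ⊢
        field_simp
        linear_combination hcc
      · rw [dotProduct_smul, star_smul, smul_dotProduct, hc', ← hc, star_div₀, star_star]
        simp only [Complex.star_def, Complex.conj_ofReal, smul_eq_mul]
        ring
  have hω1 : ‖ω‖ = 1 := by
    have h1 := congrArg norm hω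
    rw [norm_mul, norm_star, norm_one] at h1
    nlinarith [norm_nonneg ω]
  obtain ⟨H, hH, hHx⟩ := exists_reflection x (ω • y) (by
    rw [hs]
    refine Finset.sum_congr rfl fun i _ => ?_
    rw [Pi.smul_apply, smul_eq_mul, norm_mul, hω1, one_mul]) hreal
  have hω' : star ω * ω = 1 := by rw [mul_comm]; exact hω
  have hV : star ω • H ∈ UG ι := by
    rw [Matrix.mem_unitaryGroup_iff] at hH ⊢
    rw [star_smul, star_star, smul_mul_smul_comm, hH, hω', one_smul]
  refine ⟨(⟨star ω • H, hV⟩ : UG ι)⁻¹, ?_⟩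
  unfold uact
  rw [inv_inv]
  change (star ω • H) *ᵥ x = y
  rw [Matrix.smul_mulVec, hHx, smul_smul, hω', one_smul]

section haar

noncomputable local instance : MeasurableSpace (UG ι) := borel _
local instance : BorelSpace (UG ι) := ⟨rfl⟩

/-- the Haar probability measure -/
noncomputable def hmU (ι : Type) [Fintype ι] [DecidableEq ι] : @Measure (UG ι) (borel _) :=
  Measure.haarMeasure (⊤ : TopologicalSpace.PositiveCompacts (UG ι))

instance isProb_hmU : @IsProbabilityMeasure (UG ι) (borel _) (hmU ι) := by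
  constructor
  have h := Measure.haarMeasure_self (K₀ := (⊤ : TopologicalSpace.PositiveCompacts (UG ι)))
  simpa [hmU] using h

instance invariant_hmU : @Measure.IsMulLeftInvariant (UG ι) (borel _) _ (hmU ι) := by
  unfold hmU
  infer_instance

/-- the average over the unitary group -/
noncomputable def uavg (h : (ι → ℂ) → ℝ) (x : ι → ℂ) : ℝ := ∫ U, h (uact U x) ∂(hmU ι)

theorem uavg_uact (h : (ι → ℂ) → ℝ) (V : UG ι) (x : ι → ℂ) :
    uavg h (uact V x) = uavg h x := by
  unfold uavg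
  simp_rw [← uact_mul]
  exact integral_mul_left_eq_self (μ := hmU ι) (fun U => h (uact U x)) V

theorem uavg_eq (h : (ι → ℂ) → ℝ) {x y : ι → ℂ} (hs : ∑ i, ‖x i‖ ^ 2 = ∑ i, ‖y i‖ ^ 2) :
    uavg h x = uavg h y := by
  obtain ⟨V, rfl⟩ := exists_uact x y hs
  exact (uavg_uact h V x).symm

end haar

end Pool.Agent.Lib.MP_a34d76_pr.WM
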