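import Mathlib
import Pool.Agent.Lib.MP_a34d76_pr.Join.Carpenter
import Pool.Agent.Lib.MP_a34d76_pr.WM.BetaInt
import Pool.Agent.Lib.MP_a34d76_pr.WM.Unitary

/-!
# Weighted joint mixability of Beta laws (MP_a34d76_pr)
-/

set_option autoImplicit false

open MeasureTheory Set Matrix
open scoped ENNReal

namespace Pool.Agent.Lib.MP_a34d76_pr.WM

variable {ι : Type} [Fintype ι] [DecidableEq ι]

section haar

noncomputable local instance : MeasurableSpace (UG ι) := borel _
local instance : BorelSpace (UG ι) := ⟨rfl⟩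

/-- the action as a real linear equivalence -/
noncomputable def uactL (U : UG ι) : (ι → ℂ) ≃ₗ[ℝ] (ι → ℂ) where
  toFun := uact U
  invFun := uact U⁻¹
  map_add' x y := by
    unfold uact
    rw [Matrix.mulVec_add]
  map_smul' c x := by
    rw [RingHom.id_apply]
    exact uact_smul U c x
  left_inv x := by
    rw [← uact_mul, mul_inv_cancel]
    unfold uact
    simp
  right_inv x := by
    rw [← uact_mul, inv_mul_cancel]
    unfold uact
    simp

/-- the closed unit ball -/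
def cball (ι : Type) [Fintype ι] : Set (ι → ℂ) := {x | ∑ i, ‖x i‖ ^ 2 ≤ 1}

theorem isCompact_cball : IsCompact (cball ι) := by
  have h1 : IsCompact (Set.pi Set.univ fun _ : ι => Metric.closedBall (0 : ℂ) 1) :=
    isCompact_univ_pi fun _ => isCompact_closedBall _ _
  refine h1.of_isClosed_subset (isClosed_le (by fun_prop) continuous_const) ?_
  intro x hx i _
  have h2 : ‖x i‖ ^ 2 ≤ 1 :=
    (Finset.single_le_sum (f := fun i => ‖x i‖ ^ 2) (fun i _ => sq_nonneg _)
      (Finset.mem_univ i)).trans hx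
  rw [mem_closedBall_zero_iff]
  exact (sq_le_one_iff₀ (norm_nonneg _)).1 h2

theorem volume_cball_ne_zero : volume (cball ι) ≠ 0 := by
  have h1 : IsOpen {x : ι → ℂ | ∑ i, ‖x i‖ ^ 2 < 1} := isOpen_lt (by fun_prop) continuous_const
  have h2 : ({x : ι → ℂ | ∑ i, ‖x i‖ ^ 2 < 1}).Nonempty := ⟨0, by simp⟩
  have h3 := (h1.measure_pos volume h2)
  exact (h3.trans_le (measure_mono fun x (hx : ∑ i, ‖x i‖ ^ 2 < 1) => hx.le)).ne'

theorem measurePreserving_uact (U : UG ι) :
    MeasurePreserving (uact U) (volume : Measure (ι → ℂ)) volume := by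
  have hc : Continuous (uact U) := continuous_uact.comp (continuous_id.prodMk continuous_const)
  refine ⟨hc.measurable, ?_⟩
  set T : (ι → ℂ) →ₗ[ℝ] (ι → ℂ) := (uactL U : (ι → ℂ) →ₗ[ℝ] (ι → ℂ)) with hT
  have hdet : LinearMap.det T ≠ 0 :=
    left_ne_zero_of_mul_eq_one (LinearEquiv.det_mul_det_symm (uactL U))
  have h1 : (volume : Measure (ι → ℂ)).map T = ENNReal.ofReal |(LinearMap.det T)⁻¹| • volume :=
    Measure.map_linearMap_addHaar_eq_smul_addHaar volume hdet
  have h2 : (T : (ι → ℂ) → (ι → ℂ)) = uact U := rfl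
  rw [h2] at h1
  have h3 : (volume : Measure (ι → ℂ)).map (uact U) (cball ι) = volume (cball ι) := by
    rw [Measure.map_apply hc.measurable isCompact_cball.measurableSet]
    congr 1
    ext x
    change ∑ i, ‖uact U x i‖ ^ 2 ≤ 1 ↔ ∑ i, ‖x i‖ ^ 2 ≤ 1
    rw [uact_sum_sq]
  have h4 : ENNReal.ofReal |(LinearMap.det T)⁻¹| = 1 := by
    rw [h1, Measure.smul_apply, smul_eq_mul] at h3
    have h5 : ENNReal.ofReal |(LinearMap.det T)⁻¹| * volume (cball ι) = 1 * volume (cball ι) := by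
      rw [h3, one_mul]
    exact (ENNReal.mul_left_inj volume_cball_ne_zero isCompact_cball.measure_lt_top.ne).1 h5
  rw [h1, h4, one_smul]

/-- the average over the ball is the group average at one point -/
theorem uavg_ball {h : (ι → ℂ) → ℝ} (hm : Measurable h) {M : ℝ} (hM : ∀ x, ‖h x‖ ≤ M)
    (hhom : ∀ (c : ℝ) (x : ι → ℂ), 0 < c → h (c • x) = h x) {a : ι → ℂ}
    (ha : ∑ i, ‖a i‖ ^ 2 = 1) :
    volume.real (cball ι) * uavg h a = ∫ x in cball ι, h x := by
  have hfin : IsFiniteMeasure ((volume : Measure (ι → ℂ)).restrict (cball ι)) :=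
    ⟨by rw [Measure.restrict_apply_univ]; exact isCompact_cball.measure_lt_top⟩
  have h1 : ∀ x : ι → ℂ, x ≠ 0 → uavg h x = uavg h a := by
    intro x hx
    have hpos : 0 < ∑ i, ‖x i‖ ^ 2 := by
      rcases (Finset.sum_nonneg fun i (_ : i ∈ Finset.univ) => sq_nonneg ‖x i‖).eq_or_lt with h2 | h2
      · exfalso
        have h5 := (Finset.sum_eq_zero_iff_of_nonneg (fun i _ => sq_nonneg ‖x i‖)).1 h2.symm
        apply hx
        ext i
        have h6 := h5 i (Finset.mem_univ i)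
        simpa using h6
      · exact h2
    set r : ℝ := √(∑ i, ‖x i‖ ^ 2) with hr
    have hr0 : 0 < r := Real.sqrt_pos.2 hpos
    have h2 : uavg h x = uavg h (r⁻¹ • x) := by
      unfold uavg
      refine integral_congr_ae (Filter.Eventually.of_forall fun U => ?_)
      dsimp only
      rw [uact_smul, hhom _ _ (inv_pos.2 hr0)]
    rw [h2]
    refine uavg_eq h ?_
    rw [ha]
    have h3 : ∀ i, ‖(r⁻¹ • x) i‖ ^ 2 = (r ^ 2)⁻¹ * ‖x i‖ ^ 2 := by
      intro i
      rw [Pi.smul_apply, norm_smul, Real.norm_eq_abs, abs_of_pos (inv_pos.2 hr0), mul_pow, inv_pow]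
    simp_rw [h3]
    rw [← Finset.mul_sum, hr, Real.sq_sqrt hpos.le, inv_mul_cancel₀ hpos.ne']
  have h2 : ∫ x in cball ι, uavg h x = volume.real (cball ι) * uavg h a := by
    have h3 : ∀ᵐ x ∂((volume : Measure (ι → ℂ)).restrict (cball ι)), uavg h x = uavg h a := by
      rcases isEmpty_or_nonempty ι with hι | hι
      · rw [Fintype.sum_empty] at ha
        exact absurd ha zero_ne_one
      · have h4 : ∀ᵐ x ∂((volume : Measure (ι → ℂ)).restrict (cball ι)), x ≠ 0 := by
          apply ae_restrict_of_ae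
          rw [ae_iff]
          simp
        filter_upwards [h4] with x hx using h1 x hx
    rw [integral_congr_ae h3]
    simp
  rw [← h2]
  unfold uavg
  have hcm : Measurable fun p : (ι → ℂ) × UG ι => h (uact p.2 p.1) :=
    hm.comp continuous_uact.measurable
  rw [integral_integral_swap]
  · have h3 : ∀ U : UG ι, ∫ x in cball ι, h (uact U x) = ∫ x in cball ι, h x := by
      intro U
      have hpre : uact U ⁻¹' (cball ι) = cball ι := by
        ext x
        change ∑ i, ‖uact U x i‖ ^ 2 ≤ 1 ↔ ∑ i, ‖x i‖ ^ 2 ≤ 1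
        rw [uact_sum_sq]
      have hmp := (measurePreserving_uact U).restrict_preimage isCompact_cball.measurableSet
      rw [hpre] at hmp
      conv_rhs => rw [← hmp.map_eq]
      rw [integral_map hmp.measurable.aemeasurable hm.aestronglyMeasurable]
    simp_rw [h3]
    simp
  · exact Integrable.of_bound hcm.aestronglyMeasurable M
      (Filter.Eventually.of_forall fun p => hM _)

end haar

variable {p q : ℕ}

/-- the homogeneous function -/
noncomputable def hfun (p q : ℕ) (G : ℝ → ℝ) (x : Fin p ⊕ Fin q → ℂ) : ℝ :=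
  G ((∑ i : Fin p, ‖x (Sum.inl i)‖ ^ 2) / ∑ i, ‖x i‖ ^ 2)

theorem ratio_mem (x : Fin p ⊕ Fin q → ℂ) :
    (∑ i : Fin p, ‖x (Sum.inl i)‖ ^ 2) / ∑ i, ‖x i‖ ^ 2 ∈ Icc (0 : ℝ) 1 := by
  have h1 : 0 ≤ ∑ i : Fin p, ‖x (Sum.inl i)‖ ^ 2 := Finset.sum_nonneg fun _ _ => sq_nonneg _
  have h2 : 0 ≤ ∑ i : Fin q, ‖x (Sum.inr i)‖ ^ 2 := Finset.sum_nonneg fun _ _ => sq_nonneg _
  rw [Fintype.sum_sum_type]
  refine ⟨div_nonneg h1 (by linarith), div_le_one_of_le₀ (by linarith) (by linarith)⟩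

theorem measurable_hfun {G : ℝ → ℝ} (hG : Continuous G) : Measurable (hfun p q G) := by
  unfold hfun
  exact hG.measurable.comp (by fun_prop)

theorem integral_cball_hfun (hp : 0 < p) (hq : 0 < q) : ∃ c : ℝ, 0 < c ∧
    ∀ G : ℝ → ℝ, Continuous G → ∫ x in cball (Fin p ⊕ Fin q), hfun p q G x =
      c * ∫ t in (0 : ℝ)..1, t ^ (p - 1) * (1 - t) ^ (q - 1) * G t := by
  obtain ⟨cp, hcp, hp'⟩ := radial hp
  obtain ⟨cq, hcq, hq'⟩ := radial hq
  have hs : 0 < ∫ s in (0 : ℝ)..1, s ^ (p + q - 1) := by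
    rw [integral_pow]
    simp
    positivity
  refine ⟨cp * cq * ∫ s in (0 : ℝ)..1, s ^ (p + q - 1), by positivity, fun G hG => ?_⟩
  set φ : ℝ → ℝ → ℝ := fun a b => if a + b ≤ 1 then G (a / (a + b)) else 0 with hφ
  set e := MeasurableEquiv.sumPiEquivProdPi (fun _ : Fin p ⊕ Fin q => ℂ) with he
  have hmp := volume_measurePreserving_sumPiEquivProdPi (fun _ : Fin p ⊕ Fin q => ℂ)
  set Φ : (Fin p → ℂ) × (Fin q → ℂ) → ℝ := fun z => φ (∑ i, ‖z.1 i‖ ^ 2) (∑ i, ‖z.2 i‖ ^ 2) with hΦ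
  have h1 : ∫ x in cball (Fin p ⊕ Fin q), hfun p q G x = ∫ z, Φ z := by
    rw [← integral_indicator isCompact_cball.measurableSet,
      ← hmp.integral_comp e.measurableEmbedding Φ]
    refine integral_congr_ae (Filter.Eventually.of_forall fun x => ?_)
    have e1 : (e x).1 = fun i => x (Sum.inl i) := rfl
    have e2 : (e x).2 = fun i => x (Sum.inr i) := rfl
    change (cball (Fin p ⊕ Fin q)).indicator (hfun p q G) x = Φ (e x)
    simp only [hΦ, e1, e2, hφ, indicator, cball, Set.mem_ofPred_eq, hfun, Fintype.sum_sum_type]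
  obtain ⟨M, hM⟩ := isCompact_Icc.exists_bound_of_continuousOn (s := Icc (0 : ℝ) 1)
    hG.continuousOn
  have hΦi : Integrable Φ (volume.prod volume) := by
    rw [← Measure.volume_eq_prod, ← hmp.integrable_comp_emb e.measurableEmbedding]
    have e0 : Φ ∘ e = (cball (Fin p ⊕ Fin q)).indicator (hfun p q G) := by
      funext x
      have e1 : (e x).1 = fun i => x (Sum.inl i) := rfl
      have e2 : (e x).2 = fun i => x (Sum.inr i) := rfl
      simp only [Function.comp_apply, hΦ, e1, e2, hφ, indicator, cball, Set.mem_ofPred_eq, hfun,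
        Fintype.sum_sum_type]
    have e3 : (Φ ∘ (MeasurableEquiv.sumPiEquivProdPi (fun _ : Fin p ⊕ Fin q => ℂ))) =
      (cball (Fin p ⊕ Fin q)).indicator (hfun p q G) := e0
    rw [e3, integrable_indicator_iff isCompact_cball.measurableSet]
    have hfin : IsFiniteMeasure
        ((volume : Measure (Fin p ⊕ Fin q → ℂ)).restrict (cball (Fin p ⊕ Fin q))) :=
      ⟨by rw [Measure.restrict_apply_univ]; exact isCompact_cball.measure_lt_top⟩
    exact Integrable.of_bound (measurable_hfun hG).aestronglyMeasurable M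
      (Filter.Eventually.of_forall fun x => hM _ (ratio_mem x))
  rw [h1, Measure.volume_eq_prod, integral_prod _ hΦi]
  have h2 : ∀ z : Fin p → ℂ, ∫ z' : Fin q → ℂ, Φ (z, z') =
      cq * ∫ y in Ioi (0 : ℝ), y ^ (q - 1) * φ (∑ i, ‖z i‖ ^ 2) y := by
    intro z
    exact hq' (fun y => φ (∑ i, ‖z i‖ ^ 2) y)
  simp_rw [h2]
  rw [hp' (fun x => cq * ∫ y in Ioi (0 : ℝ), y ^ (q - 1) * φ x y)]
  have h3 := planar_beta hp hq hG
  have h4 : ∫ x in Ioi (0 : ℝ), x ^ (p - 1) * (cq * ∫ y in Ioi (0 : ℝ), y ^ (q - 1) * φ x y) =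
      cq * ∫ x in Ioi (0 : ℝ), x ^ (p - 1) * ∫ y in Ioi (0 : ℝ), y ^ (q - 1) * φ x y := by
    rw [← integral_const_mul]
    refine integral_congr_ae (Filter.Eventually.of_forall fun x => ?_)
    dsimp only
    ring
  rw [h4]
  simp only [hφ]
  rw [h3]
  ring

/-- The law of the squared norm of the first `p` coordinates is `Beta(p, q)`. -/
theorem uavg_beta (hp : 0 < p) (hq : 0 < q) {a : Fin p ⊕ Fin q → ℂ}
    (ha : ∑ i, ‖a i‖ ^ 2 = 1) {G : ℝ → ℝ} (hG : Continuous G) :
    (∫ t in (0 : ℝ)..1, t ^ (p - 1) * (1 - t) ^ (q - 1)) *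
        uavg (fun x : Fin p ⊕ Fin q → ℂ => G (∑ i : Fin p, ‖x (Sum.inl i)‖ ^ 2)) a =
      ∫ t in (0 : ℝ)..1, t ^ (p - 1) * (1 - t) ^ (q - 1) * G t := by
  obtain ⟨c, hc, hI⟩ := integral_cball_hfun hp hq
  have hhom : ∀ (G : ℝ → ℝ) (c : ℝ) (x : Fin p ⊕ Fin q → ℂ), 0 < c →
      hfun p q G (c • x) = hfun p q G x := by
    intro G c x hc
    unfold hfun
    have h3 : ∀ i, ‖(c • x) i‖ ^ 2 = c ^ 2 * ‖x i‖ ^ 2 := by
      intro i
      rw [Pi.smul_apply, norm_smul, Real.norm_eq_abs, abs_of_pos hc, mul_pow]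
    simp_rw [h3]
    rw [← Finset.mul_sum, ← Finset.mul_sum, mul_div_mul_left _ _ (pow_pos hc 2).ne']
  obtain ⟨M, hM⟩ := isCompact_Icc.exists_bound_of_continuousOn (s := Icc (0 : ℝ) 1)
    hG.continuousOn
  have h1 := uavg_ball (measurable_hfun hG) (fun x => hM _ (ratio_mem x)) (hhom G) ha
  have h2 := uavg_ball (h := hfun p q fun _ => 1) (M := 1) (measurable_hfun continuous_const)
    (fun x => by simp [hfun]) (hhom _) ha
  have e1 : uavg (hfun p q G) a =
      uavg (fun x : Fin p ⊕ Fin q → ℂ => G (∑ i : Fin p, ‖x (Sum.inl i)‖ ^ 2)) a := by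
    unfold uavg hfun
    refine integral_congr_ae (Filter.Eventually.of_forall fun U => ?_)
    dsimp only
    rw [uact_sum_sq, ha, div_one]
  have e2 : uavg (hfun p q fun _ => 1) a = 1 := by
    unfold uavg hfun
    simp
  rw [e2, mul_one, hI _ continuous_const] at h2
  rw [e1, hI _ hG, h2] at h1
  simp only [mul_one] at h1
  rw [mul_assoc] at h1
  exact mul_left_cancel₀ hc.ne' h1

end Pool.Agent.Lib.MP_a34d76_pr.WM
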