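import Mathlib
import Pool.Agent.Lib.MP_a34d76_pr.WM.Beta

/-!
# Random unitary matrices and the Beta law (MP_a34d76_pr)
-/

set_option autoImplicit false

open MeasureTheory Set Matrix
open scoped ENNReal

namespace Pool.Agent.Lib.MP_a34d76_pr.WM

/-- Haar average on the unitary group, law of the first `p` coordinates. -/
theorem haar_beta {p q : ℕ} (hp : 0 < p) (hq : 0 < q) :
    ∃ (Ω : Type) (_ : MeasurableSpace Ω) (σ : Measure Ω) (U : Ω → Matrix (Fin (p + q)) (Fin (p + q)) ℂ),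
      IsProbabilityMeasure σ ∧ (∀ ω, U ω ∈ Matrix.unitaryGroup (Fin (p + q)) ℂ) ∧
      (∀ r s, Measurable fun ω => U ω r s) ∧
      ∀ a : Fin (p + q) → ℂ, ∑ r, ‖a r‖ ^ 2 = 1 → ∀ G : ℝ → ℝ, Continuous G →
        (∫ t in (0 : ℝ)..1, t ^ (p - 1) * (1 - t) ^ (q - 1)) *
          ∫ ω, G (∑ r : Fin p, ‖(U ω).mulVec a (Fin.castAdd q r)‖ ^ 2) ∂σ =
        ∫ t in (0 : ℝ)..1, t ^ (p - 1) * (1 - t) ^ (q - 1) * G t := by
  let mΩ : MeasurableSpace (UG (Fin p ⊕ Fin q)) := borel _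
  have hB : BorelSpace (UG (Fin p ⊕ Fin q)) := ⟨rfl⟩
  set e : Fin p ⊕ Fin q ≃ Fin (p + q) := finSumFinEquiv with he
  refine ⟨UG (Fin p ⊕ Fin q), mΩ, hmU (Fin p ⊕ Fin q),
    fun ω => ((ω⁻¹ : UG (Fin p ⊕ Fin q)) : Matrix (Fin p ⊕ Fin q) (Fin p ⊕ Fin q) ℂ).submatrix
      e.symm e.symm, isProb_hmU, ?_, ?_, ?_⟩
  · intro ω
    rw [Matrix.mem_unitaryGroup_iff, Matrix.star_eq_conjTranspose, Matrix.conjTranspose_submatrix,
      Matrix.submatrix_mul_equiv]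
    have h1 := Matrix.mem_unitaryGroup_iff.1 (ω⁻¹ : UG (Fin p ⊕ Fin q)).2
    rw [Matrix.star_eq_conjTranspose] at h1
    rw [h1, Matrix.submatrix_one_equiv]
  · intro r s
    have h1 : Continuous fun ω : UG (Fin p ⊕ Fin q) =>
        ((ω⁻¹ : UG (Fin p ⊕ Fin q)) : Matrix (Fin p ⊕ Fin q) (Fin p ⊕ Fin q) ℂ) (e.symm r)
          (e.symm s) := by
      have h2 : Continuous fun ω : UG (Fin p ⊕ Fin q) =>
          ((ω⁻¹ : UG (Fin p ⊕ Fin q)) : Matrix (Fin p ⊕ Fin q) (Fin p ⊕ Fin q) ℂ) :=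
        continuous_subtype_val.comp continuous_inv
      exact h2.matrix_elem _ _
    exact h1.measurable
  · intro a ha G hG
    have ha' : ∑ i, ‖(a ∘ e) i‖ ^ 2 = 1 := by
      rw [← ha]
      exact Equiv.sum_comp e (fun r => ‖a r‖ ^ 2)
    rw [← uavg_beta hp hq ha' hG]
    congr 1
    unfold uavg
    refine integral_congr_ae (Filter.Eventually.of_forall fun ω => ?_)
    dsimp only
    congr 1
    refine Finset.sum_congr rfl fun r _ => ?_
    have h1 : (((ω⁻¹ : UG (Fin p ⊕ Fin q)) : Matrix (Fin p ⊕ Fin q) (Fin p ⊕ Fin q) ℂ).submatrix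
        e.symm e.symm).mulVec a (Fin.castAdd q r) = uact ω (a ∘ e) (Sum.inl r) := by
      rw [Matrix.submatrix_mulVec_equiv]
      simp only [Function.comp_apply, Equiv.symm_symm, he, finSumFinEquiv_symm_apply_castAdd]
      rfl
    rw [h1]

end Pool.Agent.Lib.MP_a34d76_pr.WM
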