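import Mathlib
import Pool.Agent.Lib.MP_a34d76_pr.WM.HaarBeta
import Pool.Agent.Lib.MP_a34d76_pr.WM.BetaCoupling

/-!
# Closure under joins (MP_a34d76_pr)
-/

set_option autoImplicit false

open MeasureTheory Set Filter
open scoped ENNReal

namespace Pool.Agent.Lib.MP_a34d76_pr.WM

theorem betaCoupling {p q : ℕ} (hp : 0 < p) (hq : 0 < q) : BetaCoupling p q :=
  betaCoupling_of_haar hp (haar_beta hp hq)

/-- weighted mixability of Beta laws. -/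
theorem beta_coupling {p q : ℕ} (hp : 0 < p) (hq : 0 < q) {n : ℕ} (w : Fin n → ℝ)
    (h0 : ∀ i, 0 ≤ w i) (h1 : ∀ i, (p + q : ℝ) * w i ≤ ∑ k, w k) :
    ∃ σ : Measure (Fin n → ℝ), IsProbabilityMeasure σ ∧
      (∀ᵐ t ∂σ, (∀ i, t i ∈ Icc (0 : ℝ) 1) ∧ ∑ i, w i * t i = (∑ k, w k) * (p / (p + q))) ∧
      ∀ i, ∀ G : ℝ → ℝ, Continuous G →
        (∫ t in (0 : ℝ)..1, t ^ (p - 1) * (1 - t) ^ (q - 1)) * ∫ t, G (t i) ∂σ =
        ∫ t in (0 : ℝ)..1, t ^ (p - 1) * (1 - t) ^ (q - 1) * G t :=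
  betaCoupling hp hq n w h0 h1

/-- closure under joins. -/
theorem WMix.join {E F : Type*} [NormedAddCommGroup E] [NormedSpace ℝ E] [FiniteDimensional ℝ E]
    [MeasurableSpace E] [BorelSpace E] [NormedAddCommGroup F] [NormedSpace ℝ F]
    [FiniteDimensional ℝ F] [MeasurableSpace F] [BorelSpace F] {p q : ℕ} (hp : 0 < p) (hq : 0 < q)
    {μ : Measure E} {ν : Measure F} [IsProbabilityMeasure μ] [IsProbabilityMeasure ν]
    {A : Set E} {B : Set F} (hA : IsCompact A) (hB : IsCompact B) (hμA : ∀ᵐ x ∂μ, x ∈ A)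
    (hνB : ∀ᵐ y ∂ν, y ∈ B) (hμ : WMix (p : ℝ) μ) (hν : WMix (q : ℝ) ν) {ρ : Measure (E × F × ℝ)}
    [IsProbabilityMeasure ρ] (hρ : IsJoin p q μ ν ρ) : WMix ((p + q : ℕ) : ℝ) ρ :=
  join_core hp hq (betaCoupling hp hq) hA hB hμA hνB hμ hν hρ

end Pool.Agent.Lib.MP_a34d76_pr.WM
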