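import Mathlib
import Pool.Agent.Lib.MP_a34d76_pr.SymWeighted
import Pool.Agent.Lib.MP_a34d76_pr.SymFinal
import Pool.Agent.Lib.MP_a34d76_pr.WM.Defs
import Pool.Agent.Lib.MP_a34d76_pr.WM.Duality

/-!
# Weighted complete mixability of symmetric convex bodies (MP_a34d76_pr)
-/

open MeasureTheory Filter Topology
open scoped NNReal ENNReal

namespace Pool.Agent.Lib.MP_a34d76_pr.WM

/-- The uniform distribution on a symmetric convex body is weighted mixable with threshold `2`
(the polygon inequality for the weights). -/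
theorem WMix.symm {d : ℕ} {C : Set (Fin d → ℝ)} (hC : Convex ℝ C) (h0 : volume C ≠ 0)
    (h1 : volume C ≠ ⊤) (hs : ∀ x ∈ C, -x ∈ C) :
    WMix 2 ((volume C)⁻¹ • volume.restrict C) := by
  intro n w hw0 hw
  rcases Nat.eq_zero_or_pos n with rfl | hn
  · refine ⟨Measure.dirac 0, inferInstance, fun i => i.elim0, ?_⟩
    exact Eventually.of_forall fun x => by simp
  have hP := isProb_Uf h0 h1
  have hKc : IsCompact (closure C) := (isBounded_of_convex hC h0 h1).isCompact_closure
  have hsK : ∀ x ∈ closure C, -x ∈ closure C := by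
    intro x hx
    exact map_mem_closure continuous_neg hx hs
  obtain ⟨x0, hx0⟩ := interior_nonempty_of_pos hC h0
  have hneg : -x0 ∈ interior C := by
    have h2 : -interior C ⊆ interior C := by
      refine interior_maximal ?_ isOpen_interior.neg
      intro y hy
      have h3 : -y ∈ C := interior_subset hy
      have h4 := hs _ h3
      rwa [neg_neg] at h4
    apply h2
    rw [Set.mem_neg, neg_neg]
    exact hx0
  have h00 : (0 : Fin d → ℝ) ∈ interior C := by
    have h2 := hC.interior hx0 hneg (by norm_num : (0 : ℝ) ≤ 1 / 2)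
      (by norm_num : (0 : ℝ) ≤ 1 / 2) (by norm_num)
    have e : (1 / 2 : ℝ) • x0 + (1 / 2 : ℝ) • -x0 = 0 := by module
    rwa [e] at h2
  have hmemcl : ∀ᵐ x ∂(Uf C), x ∈ closure C := by
    filter_upwards [ae_Uf_mem hC] with x hx using subset_closure hx
  have hae : closure C =ᵐ[volume] C := by
    refine (ae_le_set.2 ?_).antisymm subset_closure.eventuallyLE
    refine measure_mono_null ?_ (hC.addHaar_frontier volume)
    intro x hx
    exact ⟨hx.1, fun h => hx.2 (interior_subset h)⟩
  refine exists_coupling_w (Q := Uf C) hn w hKc hmemcl fun g hg => ?_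
  have hfin := sym_dual_w hKc hC.closure hsK (interior_mono subset_closure h00) hw0 hw g hg
  simp_rw [integral_Uf]
  rw [← Finset.mul_sum]
  refine mul_nonneg (by positivity) ?_
  refine hfin.trans_eq (Finset.sum_congr rfl fun i _ => ?_)
  rw [setIntegral_congr_set hae]

end Pool.Agent.Lib.MP_a34d76_pr.WM
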