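import Mathlib
import Pool.Agent.Lib.MP_a34d76_pr.WM.Defs

/-!
# Weighted complete mixability: products and linear images (MP_a34d76_pr)
-/

open MeasureTheory Filter Topology
open scoped NNReal ENNReal

namespace Pool.Agent.Lib.MP_a34d76_pr.WM

/-- Larger thresholds are weaker. -/
theorem WMix.mono {E : Type*} [AddCommGroup E] [Module ℝ E] [MeasurableSpace E] {δ δ' : ℝ}
    {μ : Measure E} (hμ : WMix δ μ) (h : δ ≤ δ') : WMix δ' μ := by
  intro n w hw0 hw
  exact hμ n w hw0 fun i => (mul_le_mul_of_nonneg_right h (hw0 i)).trans (hw i)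

/-- Complete mixability in the usual sense from weighted mixability. -/
theorem WMix.mixable {E : Type*} [AddCommGroup E] [Module ℝ E] [MeasurableSpace E] {δ : ℝ}
    {μ : Measure E} (hμ : WMix δ μ) {n : ℕ} (hn : δ ≤ n) :
    ∃ P : Measure (Fin n → E), IsProbabilityMeasure P ∧ (∀ i, P.map (fun x => x i) = μ) ∧
      ∀ᵐ x ∂P, ∑ i, x i = 0 := by
  obtain ⟨P, h1, h2, h3⟩ := hμ n (fun _ => 1) (fun _ => zero_le_one) (fun i => by simpa using hn)
  refine ⟨P, h1, h2, ?_⟩
  filter_upwards [h3] with x hx
  simpa using hx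

/-- C6a: closure under products. -/
theorem WMix.prod {E F : Type*} [NormedAddCommGroup E] [NormedSpace ℝ E] [FiniteDimensional ℝ E]
    [MeasurableSpace E] [BorelSpace E] [NormedAddCommGroup F] [NormedSpace ℝ F]
    [FiniteDimensional ℝ F] [MeasurableSpace F] [BorelSpace F] {δ δ' : ℝ}
    {μ : Measure E} {ν : Measure F} [IsProbabilityMeasure μ] [IsProbabilityMeasure ν]
    (hμ : WMix δ μ) (hν : WMix δ' ν) : WMix (max δ δ') (μ.prod ν) := by
  intro n w hw0 hw
  obtain ⟨P, hP1, hP2, hP3⟩ := hμ.mono (le_max_left δ δ') n w hw0 hw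
  obtain ⟨P', hP1', hP2', hP3'⟩ := hν.mono (le_max_right δ δ') n w hw0 hw
  have hT : Measurable fun (z : (Fin n → E) × (Fin n → F)) (i : Fin n) => (z.1 i, z.2 i) := by
    refine measurable_pi_lambda _ fun i => ?_
    exact ((measurable_pi_apply i).comp measurable_fst).prodMk
      ((measurable_pi_apply i).comp measurable_snd)
  refine ⟨(P.prod P').map fun z i => (z.1 i, z.2 i),
    Measure.isProbabilityMeasure_map hT.aemeasurable, fun i => ?_, ?_⟩
  · rw [Measure.map_map (measurable_pi_apply i) hT]
    have e : ((fun x : Fin n → E × F => x i) ∘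
        fun (z : (Fin n → E) × (Fin n → F)) (i : Fin n) => (z.1 i, z.2 i))
        = Prod.map (fun x : Fin n → E => x i) (fun y : Fin n → F => y i) := rfl
    rw [e, ← Measure.map_prod_map P P' (measurable_pi_apply i) (measurable_pi_apply i), hP2 i,
      hP2' i]
  · have h1 : ∀ᵐ z ∂(P.prod P'), ∑ i, w i • z.1 i = 0 :=
      Measure.quasiMeasurePreserving_fst.ae hP3
    have h2 : ∀ᵐ z ∂(P.prod P'), ∑ i, w i • z.2 i = 0 :=
      Measure.quasiMeasurePreserving_snd.ae hP3'
    have hEp : ProperSpace E := FiniteDimensional.proper ℝ E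
    have hFp : ProperSpace F := FiniteDimensional.proper ℝ F
    have hE : SecondCountableTopology E := secondCountable_of_proper
    have hF : SecondCountableTopology F := secondCountable_of_proper
    have hcl : MeasurableSet {x : Fin n → E × F | ∑ i, w i • x i = 0} :=
      (isClosed_eq (by fun_prop) continuous_const).measurableSet
    refine (ae_map_iff (p := fun x : Fin n → E × F => ∑ i, w i • x i = 0) hT.aemeasurable hcl).2 ?_
    filter_upwards [h1, h2] with z hz1 hz2
    refine Prod.ext ?_ ?_
    · rw [Prod.fst_sum]; exact hz1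
    · rw [Prod.snd_sum]; exact hz2

/-- C6b: linear images. -/
theorem WMix.map {E F : Type*} [NormedAddCommGroup E] [NormedSpace ℝ E] [FiniteDimensional ℝ E]
    [MeasurableSpace E] [BorelSpace E] [NormedAddCommGroup F] [NormedSpace ℝ F]
    [FiniteDimensional ℝ F] [MeasurableSpace F] [BorelSpace F] {δ : ℝ}
    {μ : Measure E} (L : E →ₗ[ℝ] F) (hμ : WMix δ μ) : WMix δ (μ.map L) := by
  intro n w hw0 hw
  obtain ⟨P, hP1, hP2, hP3⟩ := hμ n w hw0 hw
  have hLm : Measurable L := (LinearMap.continuous_of_finiteDimensional L).measurable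
  have hT : Measurable fun (x : Fin n → E) (i : Fin n) => L (x i) :=
    measurable_pi_lambda _ fun i => hLm.comp (measurable_pi_apply i)
  refine ⟨P.map fun x i => L (x i), Measure.isProbabilityMeasure_map hT.aemeasurable,
    fun i => ?_, ?_⟩
  · rw [Measure.map_map (measurable_pi_apply i) hT]
    change P.map (L ∘ fun x : Fin n → E => x i) = _
    rw [← Measure.map_map hLm (measurable_pi_apply i), hP2 i]
  · have hFp : ProperSpace F := FiniteDimensional.proper ℝ F
    have hF : SecondCountableTopology F := secondCountable_of_proper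
    have hcl : MeasurableSet {x : Fin n → F | ∑ i, w i • x i = 0} :=
      (isClosed_eq (by fun_prop) continuous_const).measurableSet
    refine (ae_map_iff (p := fun x : Fin n → F => ∑ i, w i • x i = 0) hT.aemeasurable hcl).2 ?_
    filter_upwards [hP3] with x hx
    simp_rw [← map_smul]
    rw [← map_sum, hx, map_zero]

end Pool.Agent.Lib.MP_a34d76_pr.WM
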