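import Mathlib
import Pool.Agent.Lib.MP_a34d76_pr.Bounded
import Pool.Agent.Lib.MP_a34d76_pr.WM.Prod

/-!
# Uniform distributions and affine bijections (MP_a34d76_pr)
-/

open MeasureTheory Filter Topology Set
open scoped NNReal ENNReal

namespace Pool.Agent.Lib.MP_a34d76_pr.WM

/-- The uniform distribution on a set. -/
noncomputable def unif {E : Type*} [MeasurableSpace E] (μ : Measure E) (C : Set E) : Measure E :=
  (μ C)⁻¹ • μ.restrict C

section

variable {E F : Type*} [NormedAddCommGroup E] [NormedSpace ℝ E] [FiniteDimensional ℝ E]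
  [MeasurableSpace E] [BorelSpace E] [NormedAddCommGroup F] [NormedSpace ℝ F]
  [FiniteDimensional ℝ F] [MeasurableSpace F] [BorelSpace F]

omit [NormedAddCommGroup E] [NormedSpace ℝ E] [FiniteDimensional ℝ E] [BorelSpace E] in
theorem isProb_unif {μ : Measure E} {C : Set E} (h0 : μ C ≠ 0) (h1 : μ C ≠ ⊤) :
    IsProbabilityMeasure (unif μ C) := by
  constructor
  rw [unif, Measure.smul_apply, Measure.restrict_apply_univ, smul_eq_mul,
    ENNReal.inv_mul_cancel h0 h1]

omit [FiniteDimensional ℝ F] in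
theorem affine_measurableEmbedding (A : E ≃ᵃ[ℝ] F) : MeasurableEmbedding (A : E → F) :=
  (AffineEquiv.toContinuousAffineEquiv A).toHomeomorph.measurableEmbedding

/-- The image of a Haar measure under an affine bijection. -/
theorem exists_map_eq_smul (μ : Measure E) [μ.IsAddHaarMeasure] (ν : Measure F)
    [ν.IsAddHaarMeasure] (A : E ≃ᵃ[ℝ] F) :
    ∃ c : ℝ≥0∞, c ≠ 0 ∧ c ≠ ⊤ ∧ μ.map A = c • ν := by
  set L : E ≃L[ℝ] F := A.linear.toContinuousLinearEquiv with hL
  have h1 : (μ.map L).IsAddHaarMeasure := L.isAddHaarMeasure_map _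
  have h2 : μ.map A = μ.map L := by
    have e : (A : E → F) = (fun y => y + A 0) ∘ L := by
      ext x
      have h3 := A.map_vadd 0 x
      simp only [vadd_eq_add, add_zero] at h3
      exact h3
    rw [e, ← Measure.map_map (measurable_add_const _) L.continuous.measurable,
      map_add_right_eq_self]
  have hpF : ProperSpace F := FiniteDimensional.proper ℝ F
  have h3 := Measure.isAddLeftInvariant_eq_smul (μ.map L) ν
  refine ⟨(Measure.addHaarScalarFactor (μ.map L) ν : ℝ≥0), ?_, ENNReal.coe_ne_top, ?_⟩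
  · have := Measure.addHaarScalarFactor_pos_of_isAddHaarMeasure (μ.map L) ν
    exact_mod_cast this.ne'
  · rw [h2]; exact h3

/-- Affine bijections map uniform distributions to uniform distributions. -/
theorem unif_map (μ : Measure E) [μ.IsAddHaarMeasure] (ν : Measure F)
    [ν.IsAddHaarMeasure] (A : E ≃ᵃ[ℝ] F) (C : Set E) :
    (unif μ C).map A = unif ν (A '' C) := by
  obtain ⟨c, hc0, hc1, hc⟩ := exists_map_eq_smul μ ν A
  have hemb : MeasurableEmbedding (A : E → F) := affine_measurableEmbedding A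
  have hpre : (A : E → F) ⁻¹' (A '' C) = C := preimage_image_eq C A.injective
  have h1 : (μ.restrict C).map A = c • ν.restrict (A '' C) := by
    have h2 := hemb.restrict_map μ (A '' C)
    rw [hpre, hc, Measure.restrict_smul] at h2
    exact h2.symm
  have h2 : μ C = c * ν (A '' C) := by
    have h3 := hemb.map_apply μ (A '' C)
    rw [hpre, hc] at h3
    rw [← h3]
    rfl
  rw [unif, unif, Measure.map_smul, h1, h2, smul_smul, ENNReal.mul_inv (Or.inl hc0) (Or.inl hc1)]
  congr 1
  rw [mul_comm c⁻¹, mul_assoc, ENNReal.inv_mul_cancel hc0 hc1, mul_one]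

theorem measure_image_ne_zero (μ : Measure E) [μ.IsAddHaarMeasure] (ν : Measure F)
    [ν.IsAddHaarMeasure] (A : E ≃ᵃ[ℝ] F) {C : Set E} (h : μ C ≠ 0) : ν (A '' C) ≠ 0 := by
  obtain ⟨c, hc0, hc1, hc⟩ := exists_map_eq_smul μ ν A
  have hemb : MeasurableEmbedding (A : E → F) := affine_measurableEmbedding A
  have h3 := hemb.map_apply μ (A '' C)
  rw [preimage_image_eq C A.injective, hc] at h3
  intro h0
  apply h
  rw [← h3, Measure.smul_apply, h0, smul_zero]

/-- `C` is weighted mixable with threshold `δ` about some centre. -/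
def MixBody (μ : Measure E) (δ : ℝ) (C : Set E) : Prop :=
  ∃ c : E, WMix δ ((unif μ C).map fun x => x - c)

theorem MixBody.affine {μ : Measure E} [μ.IsAddHaarMeasure] {ν : Measure F}
    [ν.IsAddHaarMeasure] {δ : ℝ} {C : Set E} (h : MixBody μ δ C) (A : E ≃ᵃ[ℝ] F) :
    MixBody ν δ (A '' C) := by
  obtain ⟨c, hc⟩ := h
  have hpE : ProperSpace E := FiniteDimensional.proper ℝ E
  have hpF : ProperSpace F := FiniteDimensional.proper ℝ F
  have hA : Measurable (A : E → F) := (affine_measurableEmbedding A).measurable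
  have hL : Measurable ((A.linear : E →ₗ[ℝ] F) : E → F) :=
    (LinearMap.continuous_of_finiteDimensional (A.linear : E →ₗ[ℝ] F)).measurable
  refine ⟨A c, ?_⟩
  rw [← unif_map μ ν A C]
  have h1 := hc.map (A.linear : E →ₗ[ℝ] F)
  rw [Measure.map_map hL (measurable_sub_const _)] at h1
  rw [Measure.map_map (measurable_sub_const _) hA]
  have e : ((fun x : F => x - A c) ∘ (A : E → F))
      = ((A.linear : E →ₗ[ℝ] F) ∘ fun x : E => x - c) := by
    ext x
    have h3 := (A : E →ᵃ[ℝ] F).linearMap_vsub x c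
    simp only [vsub_eq_sub] at h3
    exact h3.symm
  rw [e]
  exact h1

theorem MixBody.prod {μ : Measure E} [μ.IsAddHaarMeasure] {ν : Measure F}
    [ν.IsAddHaarMeasure] {δ δ' : ℝ} {C : Set E} {D : Set F} (h : MixBody μ δ C)
    (h' : MixBody ν δ' D) (hC0 : μ C ≠ 0) (hC1 : μ C ≠ ⊤) (hD0 : ν D ≠ 0) (hD1 : ν D ≠ ⊤) :
    MixBody (μ.prod ν) (max δ δ') (C ×ˢ D) := by
  obtain ⟨c, hc⟩ := h
  obtain ⟨c', hc'⟩ := h'
  have hpE : ProperSpace E := FiniteDimensional.proper ℝ E
  have hpF : ProperSpace F := FiniteDimensional.proper ℝ F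
  have h1 := isProb_unif hC0 hC1
  have h2 := isProb_unif hD0 hD1
  have h3 : IsProbabilityMeasure ((unif μ C).map fun x => x - c) :=
    Measure.isProbabilityMeasure_map (measurable_sub_const _).aemeasurable
  have h4 : IsProbabilityMeasure ((unif ν D).map fun x => x - c') :=
    Measure.isProbabilityMeasure_map (measurable_sub_const _).aemeasurable
  refine ⟨(c, c'), ?_⟩
  have h5 := hc.prod hc'
  rw [Measure.map_prod_map _ _ (measurable_sub_const _) (measurable_sub_const _)] at h5
  have e : unif (μ.prod ν) (C ×ˢ D) = (unif μ C).prod (unif ν D) := by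
    rw [unif, unif, unif, Measure.prod_smul_left, Measure.prod_smul_right, Measure.prod_restrict,
      Measure.prod_prod, smul_smul, ENNReal.mul_inv (Or.inl hC0) (Or.inl hC1)]
  rw [e]
  exact h5

end

end Pool.Agent.Lib.MP_a34d76_pr.WM
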