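import Mathlib
import Pool.Agent.Lib.MP_a34d76_pr.WM.Unif
import Pool.Agent.Lib.MP_a34d76_pr.WM.Symm
import Pool.Agent.Lib.MP_a34d76_pr.WM.C3
import Pool.Agent.Lib.MP_a34d76_pr.WM.Join

/-!
# The class generated by points and symmetric convex bodies under products and joins
(MP_a34d76_pr)
-/

open MeasureTheory Filter Topology Set
open scoped NNReal ENNReal

namespace Pool.Agent.Lib.MP_a34d76_pr.WM

/-- `Gen d C N`: the set `C ⊆ ℝ^d` is built from points and centrally symmetric convex bodies by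
affine images of products and joins; `N` is the threshold computed along the way: `1` for a point,
`2` for a symmetric body of dimension at least one, the maximum for a product and the dimension plus
one for a join. -/
inductive Gen : (d : ℕ) → Set (Fin d → ℝ) → ℕ → Prop
  | point : Gen 0 univ 1
  | symm {d : ℕ} {C : Set (Fin d → ℝ)} (hd : 1 ≤ d) (hc : IsCompact C) (hv : Convex ℝ C)
      (hi : (interior C).Nonempty) (c : Fin d → ℝ) (hs : ∀ x ∈ C, (2 : ℝ) • c - x ∈ C) : Gen d C 2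
  | prod {k l d M N : ℕ} {K : Set (Fin k → ℝ)} {L : Set (Fin l → ℝ)} (hK : Gen k K M)
      (hL : Gen l L N) (A : ((Fin k → ℝ) × (Fin l → ℝ)) ≃ᵃ[ℝ] (Fin d → ℝ)) :
      Gen d (A '' (K ×ˢ L)) (max M N)
  | join {k l d M N : ℕ} {K : Set (Fin k → ℝ)} {L : Set (Fin l → ℝ)} (hK : Gen k K M)
      (hL : Gen l L N) (A : ((Fin k → ℝ) × (Fin l → ℝ) × ℝ) ≃ᵃ[ℝ] (Fin d → ℝ)) :
      Gen d (A '' joinSet K L) (k + l + 2)

theorem isAddHaar_prod2 (k l : ℕ) :
    (volume : Measure ((Fin k → ℝ) × (Fin l → ℝ))).IsAddHaarMeasure :=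
  Measure.prod.instIsAddHaarMeasure _ _

theorem isAddHaar_prod3 (k l : ℕ) :
    (volume : Measure ((Fin k → ℝ) × (Fin l → ℝ) × ℝ)).IsAddHaarMeasure := by
  have h : (volume : Measure ((Fin l → ℝ) × ℝ)).IsAddHaarMeasure :=
    Measure.prod.instIsAddHaarMeasure _ _
  exact Measure.prod.instIsAddHaarMeasure _ _

/-- The dimension is determined by an affine bijection. -/
theorem dim_prod {k l d : ℕ} (A : ((Fin k → ℝ) × (Fin l → ℝ)) ≃ᵃ[ℝ] (Fin d → ℝ)) :
    d = k + l := by
  have h := A.linear.finrank_eq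
  simp at h
  omega

theorem dim_join {k l d : ℕ} (A : ((Fin k → ℝ) × (Fin l → ℝ) × ℝ) ≃ᵃ[ℝ] (Fin d → ℝ)) :
    d = k + l + 1 := by
  have h := A.linear.finrank_eq
  simp at h
  omega

/-- The shear used to move the centres. -/
noncomputable def shearL (k l : ℕ) (a : Fin k → ℝ) (b : Fin l → ℝ) :
    ((Fin k → ℝ) × (Fin l → ℝ) × ℝ) ≃ₗ[ℝ] ((Fin k → ℝ) × (Fin l → ℝ) × ℝ) where
  toFun z := (z.1 + z.2.2 • a, z.2.1 - z.2.2 • b, z.2.2)
  invFun z := (z.1 - z.2.2 • a, z.2.1 + z.2.2 • b, z.2.2)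
  left_inv z := by simp
  right_inv z := by simp
  map_add' x y := by
    ext i <;> simp <;> ring
  map_smul' r x := by
    ext i <;> simp <;> ring

/-- The affine shear. -/
noncomputable def shearA (k l : ℕ) (a : Fin k → ℝ) (b : Fin l → ℝ) :
    ((Fin k → ℝ) × (Fin l → ℝ) × ℝ) ≃ᵃ[ℝ] ((Fin k → ℝ) × (Fin l → ℝ) × ℝ) :=
  (shearL k l a b).toAffineEquiv.trans
    (AffineEquiv.constVAdd ℝ ((Fin k → ℝ) × (Fin l → ℝ) × ℝ) (0, b, 0))

theorem shearA_apply (k l : ℕ) (a : Fin k → ℝ) (b : Fin l → ℝ)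
    (z : (Fin k → ℝ) × (Fin l → ℝ) × ℝ) :
    shearA k l a b z = (z.1 + z.2.2 • a, b + (z.2.1 - z.2.2 • b), z.2.2) := by
  simp [shearA, shearL]

theorem joinSet_shear {k l : ℕ} (K : Set (Fin k → ℝ)) (L : Set (Fin l → ℝ)) (a : Fin k → ℝ)
    (b : Fin l → ℝ) :
    shearA k l a b '' joinSet ((fun x => x - a) '' K) ((fun y => y - b) '' L) = joinSet K L := by
  ext z
  constructor
  · rintro ⟨_, ⟨t, ht, _, ⟨x, hx, rfl⟩, _, ⟨y, hy, rfl⟩, rfl⟩, rfl⟩
    refine ⟨t, ht, x, hx, y, hy, ?_⟩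
    rw [shearA_apply]
    refine Prod.ext ?_ (Prod.ext ?_ ?_)
    · simp only
      module
    · simp only
      module
    · rfl
  · rintro ⟨t, ht, x, hx, y, hy, rfl⟩
    refine ⟨(t • (x - a), (1 - t) • (y - b), t),
      ⟨t, ht, _, ⟨x, hx, rfl⟩, _, ⟨y, hy, rfl⟩, rfl⟩, ?_⟩
    rw [shearA_apply]
    refine Prod.ext ?_ (Prod.ext ?_ ?_)
    · simp only
      module
    · simp only
      module
    · rfl

/-- Translation as an affine bijection. -/
theorem image_sub_eq {d : ℕ} (K : Set (Fin d → ℝ)) (a : Fin d → ℝ) :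
    (fun x => x - a) '' K = (AffineEquiv.constVAdd ℝ (Fin d → ℝ) (-a)) '' K := by
  refine image_congr fun x _ => ?_
  simp [sub_eq_neg_add]

theorem unif_sub {d : ℕ} (K : Set (Fin d → ℝ)) (a : Fin d → ℝ) :
    (unif volume K).map (fun x => x - a) = unif volume ((fun x => x - a) '' K) := by
  rw [image_sub_eq, ← unif_map volume volume]
  congr 1
  ext x
  simp [sub_eq_neg_add]

theorem convex_joinSet {k l : ℕ} {K : Set (Fin k → ℝ)} {L : Set (Fin l → ℝ)}
    (hK : Convex ℝ K) (hL : Convex ℝ L) : Convex ℝ (joinSet K L) := by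
  rintro _ ⟨t, ht, x, hx, y, hy, rfl⟩ _ ⟨t', ht', x', hx', y', hy', rfl⟩ a b ha hb hab
  obtain ⟨x'', hx'', ex⟩ := hK.exists_mem_add_smul_eq hx hx' (mul_nonneg ha ht.1)
    (mul_nonneg hb ht'.1)
  obtain ⟨y'', hy'', ey⟩ := hL.exists_mem_add_smul_eq hy hy'
    (mul_nonneg ha (by linarith [ht.2] : (0 : ℝ) ≤ 1 - t))
    (mul_nonneg hb (by linarith [ht'.2] : (0 : ℝ) ≤ 1 - t'))
  refine ⟨a * t + b * t', ⟨by have := ht.1; have := ht'.1; positivity, ?_⟩, x'', hx'', y'', hy'', ?_⟩
  · have h1 := mul_le_mul_of_nonneg_left ht.2 ha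
    have h2 := mul_le_mul_of_nonneg_left ht'.2 hb
    linarith
  · have e1 : a * (1 - t) + b * (1 - t') = 1 - (a * t + b * t') := by linear_combination hab
    rw [← e1, ex, ey]
    simp only [Prod.smul_mk, Prod.mk_add_mk, smul_smul, smul_eq_mul]

/-- Weighted mixability of joins. -/
theorem mixBody_join {k l : ℕ} {K : Set (Fin k → ℝ)} {L : Set (Fin l → ℝ)}
    (hKv : Convex ℝ K) (hLv : Convex ℝ L)
    (hKc : IsCompact K) (hLc : IsCompact L) (hK0 : volume K ≠ 0) (hL0 : volume L ≠ 0)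
    (hK : MixBody volume ((k + 1 : ℕ) : ℝ) K) (hL : MixBody volume ((l + 1 : ℕ) : ℝ) L) :
    volume (joinSet K L) ≠ 0 ∧ MixBody volume ((k + l + 2 : ℕ) : ℝ) (joinSet K L) := by
  have hH := isAddHaar_prod3 k l
  obtain ⟨a, ha⟩ := hK
  obtain ⟨b, hb⟩ := hL
  rw [unif_sub] at ha hb
  set K' := (fun x => x - a) '' K with hK'
  set L' := (fun x => x - b) '' L with hL'
  have hKc' : IsCompact K' := hKc.image (by fun_prop)
  have hLc' : IsCompact L' := hLc.image (by fun_prop)
  have hKv' : Convex ℝ K' := by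
    rw [hK', image_sub_eq]
    exact hKv.affine_image (AffineEquiv.constVAdd ℝ (Fin k → ℝ) (-a)).toAffineMap
  have hLv' : Convex ℝ L' := by
    rw [hL', image_sub_eq]
    exact hLv.affine_image (AffineEquiv.constVAdd ℝ (Fin l → ℝ) (-b)).toAffineMap
  have hK0' : volume K' ≠ 0 := by
    rw [hK', image_sub_eq]
    exact measure_image_ne_zero volume volume _ hK0
  have hL0' : volume L' ≠ 0 := by
    rw [hL', image_sub_eq]
    exact measure_image_ne_zero volume volume _ hL0
  have hJ := isJoin_unif hKv' hLv' hKc' hLc' hK0' hL0'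
  set s : ℝ := ((k + 1 : ℕ) : ℝ) / (((k + 1 : ℕ) : ℝ) + ((l + 1 : ℕ) : ℝ)) with hs
  have hmeas : Measurable (fun z : (Fin k → ℝ) × (Fin l → ℝ) × ℝ =>
      ((z.1, z.2.1, z.2.2 - s) : (Fin k → ℝ) × (Fin l → ℝ) × ℝ)) := by fun_prop
  have hV1 : volume (joinSet K' L') ≠ ⊤ := (isCompact_joinSet hKc' hLc').measure_lt_top.ne
  have hPK := isProb_unif hK0' hKc'.measure_lt_top.ne
  have hPL := isProb_unif hL0' hLc'.measure_lt_top.ne
  have hV0 : volume (joinSet K' L') ≠ 0 := by
    intro h0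
    have h1 := hJ (fun _ => 1) continuous_const
    rw [Measure.restrict_eq_zero.2 h0] at h1
    simp only [smul_zero, Measure.map_zero, integral_zero_measure, mul_zero] at h1
    have h2 : (∫ t in (0 : ℝ)..1, t ^ (k + 1 - 1) * (1 - t) ^ (l + 1 - 1) *
        ∫ _x : Fin k → ℝ, ∫ _y : Fin l → ℝ, (1 : ℝ) ∂((volume L')⁻¹ • volume.restrict L')
          ∂((volume K')⁻¹ • volume.restrict K')) =
        ∫ t in (0 : ℝ)..1, t ^ k * (1 - t) ^ l := by
      have e1 : ∫ _y : Fin l → ℝ, (1 : ℝ) ∂((volume L')⁻¹ • volume.restrict L') = 1 := by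
        have := hPL
        rw [unif] at this
        simp
      have e2 : ∫ _x : Fin k → ℝ, (1 : ℝ) ∂((volume K')⁻¹ • volume.restrict K') = 1 := by
        have := hPK
        rw [unif] at this
        simp
      rw [e1, e2]
      simp
    rw [h2] at h1
    exact (betaInt_pos k l).ne h1
  have hPJ := isProb_unif hV0 hV1
  rw [unif] at hPJ
  have hPJ' : IsProbabilityMeasure
      (((volume (joinSet K' L'))⁻¹ • volume.restrict (joinSet K' L')).map
      (fun z : (Fin k → ℝ) × (Fin l → ℝ) × ℝ =>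
        ((z.1, z.2.1, z.2.2 - s) : (Fin k → ℝ) × (Fin l → ℝ) × ℝ))) :=
    Measure.isProbabilityMeasure_map hmeas.aemeasurable
  have hKm : ∀ᵐ x ∂(unif volume K'), x ∈ K' :=
    (Measure.ae_smul_measure (ae_restrict_mem hKc'.measurableSet) _)
  have hLm : ∀ᵐ x ∂(unif volume L'), x ∈ L' :=
    (Measure.ae_smul_measure (ae_restrict_mem hLc'.measurableSet) _)
  have hW := WMix.join (p := k + 1) (q := l + 1) (by omega) (by omega) hKc' hLc' hKm hLm ha hb hJ
  have hbody : MixBody volume ((k + l + 2 : ℕ) : ℝ) (joinSet K' L') := by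
    refine ⟨(0, 0, s), ?_⟩
    have e3 : (fun z : (Fin k → ℝ) × (Fin l → ℝ) × ℝ => z - (0, 0, s))
        = fun z => ((z.1, z.2.1, z.2.2 - s) : (Fin k → ℝ) × (Fin l → ℝ) × ℝ) := by
      ext z <;> simp
    rw [e3]
    have e4 : k + 1 + (l + 1) = k + l + 2 := by omega
    rw [e4] at hW
    exact hW
  have hJS := joinSet_shear K L a b
  rw [← hK', ← hL'] at hJS
  rw [← hJS]
  exact ⟨measure_image_ne_zero volume volume _ hV0, hbody.affine _⟩

/-- Everything we need about the class. -/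
theorem Gen.all {d N : ℕ} {C : Set (Fin d → ℝ)} (h : Gen d C N) :
    Convex ℝ C ∧ IsCompact C ∧ volume C ≠ 0 ∧ 1 ≤ N ∧ N ≤ d + 1 ∧ MixBody volume (N : ℝ) C := by
  induction h with
  | point =>
    have hv : (volume : Measure (Fin 0 → ℝ)) univ = 1 := by
      rw [volume_pi, Measure.pi_univ]; simp
    refine ⟨convex_univ, isCompact_univ, by rw [hv]; exact one_ne_zero, le_rfl, le_rfl, 0, ?_⟩
    intro n w hw0 hw
    have hP : IsProbabilityMeasure ((unif volume (univ : Set (Fin 0 → ℝ))).map fun x => x - 0) := by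
      have := isProb_unif (μ := (volume : Measure (Fin 0 → ℝ))) (C := univ)
        (by rw [hv]; exact one_ne_zero) (by rw [hv]; exact ENNReal.one_ne_top)
      exact Measure.isProbabilityMeasure_map (by fun_prop)
    refine ⟨Measure.pi fun _ => (unif volume (univ : Set (Fin 0 → ℝ))).map fun x => x - 0,
      inferInstance, fun i => ?_, ?_⟩
    · exact (measurePreserving_eval _ i).map_eq
    · exact Eventually.of_forall fun x => Subsingleton.elim _ _
  | @symm d C hd hc hv hi c hs =>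
    have h0 : volume C ≠ 0 := (Measure.measure_pos_of_nonempty_interior volume hi).ne'
    refine ⟨hv, hc, h0, by norm_num, by omega, c, ?_⟩
    rw [unif_sub]
    have h0' : volume ((fun x => x - c) '' C) ≠ 0 := by
      rw [image_sub_eq]
      exact measure_image_ne_zero volume volume _ h0
    have hc' : IsCompact ((fun x => x - c) '' C) := hc.image (by fun_prop)
    have hv' : Convex ℝ ((fun x => x - c) '' C) := by
      rw [image_sub_eq]
      exact hv.affine_image (AffineEquiv.constVAdd ℝ (Fin d → ℝ) (-c)).toAffineMap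
    refine WMix.symm hv' h0' hc'.measure_lt_top.ne ?_
    rintro _ ⟨x, hx, rfl⟩
    exact ⟨(2 : ℝ) • c - x, hs x hx, by simp only; module⟩
  | @prod k l d M N K L hK hL A ihK ihL =>
    obtain ⟨hKv, hKc, hK0, hM1, hM, hKb⟩ := ihK
    obtain ⟨hLv, hLc, hL0, hN1, hN, hLb⟩ := ihL
    have hH := isAddHaar_prod2 k l
    have hd := dim_prod A
    refine ⟨(hKv.prod hLv).affine_image A.toAffineMap, ?_, ?_, le_max_of_le_left hM1, ?_, ?_⟩
    · exact (hKc.prod hLc).image (AffineEquiv.toContinuousAffineEquiv A).continuous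
    · refine measure_image_ne_zero volume volume A ?_
      rw [Measure.volume_eq_prod, Measure.prod_prod]
      exact mul_ne_zero hK0 hL0
    · rw [hd]
      exact max_le (by omega) (by omega)
    · have h1 := hKb.prod hLb hK0 hKc.measure_lt_top.ne hL0 hLc.measure_lt_top.ne
      have h2 : MixBody (volume : Measure ((Fin k → ℝ) × (Fin l → ℝ))) (max (M : ℝ) N) (K ×ˢ L) := h1
      have h3 := h2.affine (ν := volume) A
      rwa [← Nat.cast_max] at h3
  | @join k l d M N K L hK hL A ihK ihL =>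
    obtain ⟨hKv, hKc, hK0, hM1, hM, hKb⟩ := ihK
    obtain ⟨hLv, hLc, hL0, hN1, hN, hLb⟩ := ihL
    have hH := isAddHaar_prod3 k l
    have hd := dim_join A
    have hKb' : MixBody volume ((k + 1 : ℕ) : ℝ) K := by
      obtain ⟨a, ha⟩ := hKb
      exact ⟨a, ha.mono (by exact_mod_cast hM)⟩
    have hLb' : MixBody volume ((l + 1 : ℕ) : ℝ) L := by
      obtain ⟨a, ha⟩ := hLb
      exact ⟨a, ha.mono (by exact_mod_cast hN)⟩
    obtain ⟨hJ0, hJb⟩ := mixBody_join hKv hLv hKc hLc hK0 hL0 hKb' hLb'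
    refine ⟨(convex_joinSet hKv hLv).affine_image A.toAffineMap, ?_, ?_, by omega, by omega, ?_⟩
    · exact (isCompact_joinSet hKc hLc).image (AffineEquiv.toContinuousAffineEquiv A).continuous
    · exact measure_image_ne_zero volume volume A hJ0
    · exact hJb.affine A

/-- Complete mixability for the class. -/
theorem Gen.mixable {d N : ℕ} {C : Set (Fin d → ℝ)} (hC : Convex ℝ C) (h : Gen d (closure C) N) {n : ℕ} (hn : N ≤ n) :
    ∃ P : Measure (Fin n → (Fin d → ℝ)),
      IsProbabilityMeasure P ∧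
      (∀ i : Fin n, P.map (fun x : Fin n → (Fin d → ℝ) => x i)
        = (volume C)⁻¹ • volume.restrict C) ∧
      ∃ c : Fin d → ℝ, ∀ᵐ x ∂P, (∑ i, x i) = c := by
  obtain ⟨-, -, -, -, -, c, hc⟩ := h.all
  have hae : closure C =ᵐ[volume] C := by
    refine (ae_le_set.2 ?_).antisymm subset_closure.eventuallyLE
    refine measure_mono_null ?_ (hC.addHaar_frontier volume)
    intro x hx
    exact ⟨hx.1, fun h => hx.2 (interior_subset h)⟩
  have hu : unif volume (closure C) = (volume C)⁻¹ • volume.restrict C := by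
    rw [unif, measure_congr hae, Measure.restrict_congr_set hae]
  rw [hu] at hc
  obtain ⟨P, hP1, hP2, hP3⟩ := hc.mixable (n := n) (by exact_mod_cast hn)
  have hT : Measurable fun (x : Fin n → Fin d → ℝ) (i : Fin n) => x i + c := by fun_prop
  refine ⟨P.map fun x i => x i + c, Measure.isProbabilityMeasure_map hT.aemeasurable,
    fun i => ?_, n • c, ?_⟩
  · rw [Measure.map_map (measurable_pi_apply i) hT]
    change P.map ((fun y => y + c) ∘ fun x : Fin n → Fin d → ℝ => x i) = _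
    have hadd : Measurable fun y : Fin d → ℝ => y + c := by fun_prop
    have hev : Measurable fun x : Fin n → Fin d → ℝ => x i := measurable_pi_apply i
    rw [← Measure.map_map hadd hev, hP2 i, Measure.map_map hadd (measurable_sub_const c)]
    have e : ((fun y : Fin d → ℝ => y + c) ∘ fun x => x - c) = id := by
      ext x; simp
    rw [e, Measure.map_id]
  · refine (ae_map_iff (p := fun x : Fin n → Fin d → ℝ => (∑ i, x i) = n • c) hT.aemeasurable
      (measurableSet_eq_fun (by fun_prop) measurable_const)).2 ?_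
    filter_upwards [hP3] with x hx
    rw [Finset.sum_add_distrib, hx, zero_add]
    simp

end Pool.Agent.Lib.MP_a34d76_pr.WM
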